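import Mathlib

/-! Closure rules for primitive recursive and computable functions, in the shape used by
`fun_prop`. -/

open Encodable

namespace Pool.Agent.P.MP_d6faff_lc

attribute [fun_prop] Primrec Computable

variable {α β γ σ : Type*} [Primcodable α] [Primcodable β] [Primcodable γ] [Primcodable σ]

/-! ### primitive recursive functions -/

@[fun_prop] theorem p_id : Primrec (fun x : α => x) := Primrec.id
@[fun_prop] theorem p_const (c : σ) : Primrec (fun _ : α => c) := Primrec.const c
@[fun_prop] theorem p_comp {f : β → σ} {g : α → β} (hf : Primrec f) (hg : Primrec g) :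
    Primrec (fun a => f (g a)) := hf.comp hg
@[fun_prop] theorem p_pair {f : α → β} {g : α → γ} (hf : Primrec f) (hg : Primrec g) :
    Primrec (fun a => (f a, g a)) := hf.pair hg
@[fun_prop] theorem p_fst {f : α → β × γ} (hf : Primrec f) : Primrec (fun a => (f a).1) :=
  Primrec.fst.comp hf
@[fun_prop] theorem p_snd {f : α → β × γ} (hf : Primrec f) : Primrec (fun a => (f a).2) :=
  Primrec.snd.comp hf
@[fun_prop] theorem p_add {f g : α → ℕ} (hf : Primrec f) (hg : Primrec g) :
    Primrec (fun a => f a + g a) := Primrec.nat_add.comp hf hg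
@[fun_prop] theorem p_sub {f g : α → ℕ} (hf : Primrec f) (hg : Primrec g) :
    Primrec (fun a => f a - g a) := Primrec.nat_sub.comp hf hg
@[fun_prop] theorem p_div {f g : α → ℕ} (hf : Primrec f) (hg : Primrec g) :
    Primrec (fun a => f a / g a) := Primrec.nat_div.comp hf hg
@[fun_prop] theorem p_mod {f g : α → ℕ} (hf : Primrec f) (hg : Primrec g) :
    Primrec (fun a => f a % g a) := Primrec.nat_mod.comp hf hg
@[fun_prop] theorem p_unpair {f : α → ℕ} (hf : Primrec f) :
    Primrec (fun a => (f a).unpair) := Primrec.unpair.comp hf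
@[fun_prop] theorem p_cons {f : α → β} {g : α → List β} (hf : Primrec f) (hg : Primrec g) :
    Primrec (fun a => f a :: g a) := Primrec.list_cons.comp hf hg
@[fun_prop] theorem p_append {f g : α → List β} (hf : Primrec f) (hg : Primrec g) :
    Primrec (fun a => f a ++ g a) := Primrec.list_append.comp hf hg
@[fun_prop] theorem p_length {g : α → List β} (hg : Primrec g) :
    Primrec (fun a => (g a).length) := Primrec.list_length.comp hg
@[fun_prop] theorem p_tail {g : α → List β} (hg : Primrec g) :
    Primrec (fun a => (g a).tail) := Primrec.list_tail.comp hg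
@[fun_prop] theorem p_reverse {g : α → List β} (hg : Primrec g) :
    Primrec (fun a => (g a).reverse) := Primrec.list_reverse.comp hg
@[fun_prop] theorem p_drop {f : α → ℕ} {g : α → List β} (hf : Primrec f) (hg : Primrec g) :
    Primrec (fun a => (g a).drop (f a)) := Primrec.list_drop.comp hf hg
@[fun_prop] theorem p_getD {f : α → ℕ} {g : α → List β} (d : β) (hf : Primrec f) (hg : Primrec g) :
    Primrec (fun a => (g a).getD (f a) d) := (Primrec.list_getD d).comp hg hf
@[fun_prop] theorem p_cond {c : α → Bool} {f g : α → σ} (hc : Primrec c) (hf : Primrec f)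
    (hg : Primrec g) : Primrec (fun a => bif c a then f a else g a) := Primrec.cond hc hf hg
@[fun_prop] theorem p_and {f g : α → Bool} (hf : Primrec f) (hg : Primrec g) :
    Primrec (fun a => f a && g a) := Primrec.and.comp hf hg
@[fun_prop] theorem p_or {f g : α → Bool} (hf : Primrec f) (hg : Primrec g) :
    Primrec (fun a => f a || g a) := Primrec.or.comp hf hg
@[fun_prop] theorem p_xor {f g : α → Bool} (hf : Primrec f) (hg : Primrec g) :
    Primrec (fun a => xor (f a) (g a)) := (Primrec.dom_bool₂ xor).comp hf hg
@[fun_prop] theorem p_not {f : α → Bool} (hf : Primrec f) :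
    Primrec (fun a => !(f a)) := Primrec.not.comp hf
@[fun_prop] theorem p_declt {f g : α → ℕ} (hf : Primrec f) (hg : Primrec g) :
    Primrec (fun a => decide (f a < g a)) := (Primrec.nat_lt.comp hf hg).decide
@[fun_prop] theorem p_decle {f g : α → ℕ} (hf : Primrec f) (hg : Primrec g) :
    Primrec (fun a => decide (f a ≤ g a)) := (Primrec.nat_le.comp hf hg).decide
@[fun_prop] theorem p_deceq [DecidableEq β] {f g : α → β} (hf : Primrec f) (hg : Primrec g) :
    Primrec (fun a => decide (f a = g a)) := (Primrec.eq.comp hf hg).decide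
@[fun_prop] theorem p_decmem [DecidableEq β] {f : α → β} {g : α → List β} (hf : Primrec f)
    (hg : Primrec g) : Primrec (fun a => decide (f a ∈ g a)) := by
  have h : PrimrecRel fun (L : List β) (b : β) => ∃ a ∈ L, a = b :=
    PrimrecRel.exists_mem_list Primrec.eq
  exact ((h.comp hg hf).of_eq (fun a => by simp)).decide
@[fun_prop] theorem p_encode {f : α → β} (hf : Primrec f) :
    Primrec (fun a => encode (f a)) := Primrec.encode.comp hf
@[fun_prop] theorem p_decode {f : α → ℕ} (hf : Primrec f) :
    Primrec (fun a => (decode (f a) : Option β)) := Primrec.decode.comp hf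
@[fun_prop] theorem p_some {f : α → β} (hf : Primrec f) :
    Primrec (fun a => some (f a)) := Primrec.option_some.comp hf
@[fun_prop] theorem p_ogetD {f : α → Option β} {g : α → β} (hf : Primrec f) (hg : Primrec g) :
    Primrec (fun a => (f a).getD (g a)) := Primrec.option_getD.comp hf hg
@[fun_prop] theorem p_isSome {f : α → Option β} (hf : Primrec f) :
    Primrec (fun a => (f a).isSome) := Primrec.option_isSome.comp hf
@[fun_prop] theorem p_inl {f : α → β} (hf : Primrec f) :
    Primrec (fun a => (Sum.inl (f a) : β ⊕ γ)) := Primrec.sumInl.comp hf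
@[fun_prop] theorem p_inr {f : α → γ} (hf : Primrec f) :
    Primrec (fun a => (Sum.inr (f a) : β ⊕ γ)) := Primrec.sumInr.comp hf
@[fun_prop] theorem p_elim {f : α → β ⊕ γ} {g : α → β → σ} {h : α → γ → σ} (hf : Primrec f)
    (hg : Primrec fun x : α × β => g x.1 x.2) (hh : Primrec fun x : α × γ => h x.1 x.2) :
    Primrec (fun a => Sum.elim (g a) (h a) (f a)) :=
  (Primrec.sumCasesOn hf hg hh).of_eq fun a => by cases f a <;> rfl
@[fun_prop] theorem p_iterate {f : α → ℕ} {g : α → β} {h : α → β → β} (hf : Primrec f)
    (hg : Primrec g) (hh : Primrec fun x : α × β => h x.1 x.2) :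
    Primrec (fun a => (h a)^[f a] (g a)) := Primrec.nat_iterate hf hg hh

/-- the last `t < s` with `p t`, or `0` -/
def lastB (p : ℕ → Bool) (s : ℕ) : ℕ := Nat.findGreatest (fun t => t < s ∧ p t = true) s

/-- the number of `t < s` with `p t` -/
def cntB (p : ℕ → Bool) (s : ℕ) : ℕ := Nat.count (fun t => p t = true) s

/-- bounded existential quantifier -/
def exB (p : ℕ → Bool) (n : ℕ) : Bool := decide (∃ x < n, p x = true)

/-- bounded universal quantifier -/
def allB (p : ℕ → Bool) (n : ℕ) : Bool := decide (∀ x < n, p x = true)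

/-- suffix test -/
def sfx {δ : Type*} [DecidableEq δ] (a b : List δ) : Bool :=
  decide (b.drop (b.length - a.length) = a)

theorem sfx_iff {δ : Type*} [DecidableEq δ] {a b : List δ} : sfx a b = true ↔ a <:+ b := by
  unfold sfx
  rw [decide_eq_true_iff, List.suffix_iff_eq_drop, eq_comm]

@[simp] theorem exB_iff {p : ℕ → Bool} {n : ℕ} : exB p n = true ↔ ∃ x < n, p x = true := by
  simp [exB]

@[simp] theorem allB_iff {p : ℕ → Bool} {n : ℕ} : allB p n = true ↔ ∀ x < n, p x = true := by
  simp [allB]

@[fun_prop] theorem p_lastB {p : α → ℕ → Bool} {s : α → ℕ}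
    (hp : Primrec (fun x : α × ℕ => p x.1 x.2)) (hs : Primrec s) :
    Primrec (fun a => lastB (p a) (s a)) := by
  unfold lastB
  refine Primrec.nat_findGreatest hs ?_
  refine PrimrecPred.and (Primrec.nat_lt.comp Primrec.snd (hs.comp Primrec.fst)) ?_
  exact Primrec.eq.comp hp (Primrec.const true)

@[fun_prop] theorem p_cntB {p : α → ℕ → Bool} {s : α → ℕ}
    (hp : Primrec (fun x : α × ℕ => p x.1 x.2)) (hs : Primrec s) :
    Primrec (fun a => cntB (p a) (s a)) := by
  have h : Primrec₂ fun (a : α) (x : ℕ × ℕ) => x.2 + bif p a x.1 then 1 else 0 := by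
    unfold Primrec₂
    fun_prop
  refine (Primrec.nat_rec' hs (Primrec.const 0) h).of_eq fun a => ?_
  unfold cntB
  induction s a with
  | zero => simp
  | succ n ih =>
    rw [Nat.count_succ, ← ih]
    cases hh : p a n <;> simp [hh]

@[fun_prop] theorem p_exB {p : α → ℕ → Bool} {s : α → ℕ}
    (hp : Primrec (fun x : α × ℕ => p x.1 x.2)) (hs : Primrec s) :
    Primrec (fun a => exB (p a) (s a)) := by
  have h1 : PrimrecRel fun (n : ℕ) (a : α) => p a n = true :=
    Primrec.eq.comp (hp.comp (Primrec.snd.pair Primrec.fst)) (Primrec.const true)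
  have h2 := (PrimrecRel.exists_mem_list h1).comp (Primrec.list_range.comp hs) Primrec.id
  exact (h2.of_eq (fun a => by simp)).decide

@[fun_prop] theorem p_allB {p : α → ℕ → Bool} {s : α → ℕ}
    (hp : Primrec (fun x : α × ℕ => p x.1 x.2)) (hs : Primrec s) :
    Primrec (fun a => allB (p a) (s a)) := by
  have h1 : PrimrecRel fun (n : ℕ) (a : α) => p a n = true :=
    Primrec.eq.comp (hp.comp (Primrec.snd.pair Primrec.fst)) (Primrec.const true)
  have h2 := (PrimrecRel.forall_mem_list h1).comp (Primrec.list_range.comp hs) Primrec.id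
  exact (h2.of_eq (fun a => by simp)).decide

@[fun_prop] theorem p_sfx [DecidableEq β] {f g : α → List β} (hf : Primrec f) (hg : Primrec g) :
    Primrec (fun a => sfx (f a) (g a)) := by
  unfold sfx
  fun_prop

theorem lastB_congr {p q : ℕ → Bool} {s : ℕ} (h : ∀ t < s, p t = q t) : lastB p s = lastB q s := by
  unfold lastB
  congr 1
  funext t
  by_cases ht : t < s
  · simp [ht, h t ht]
  · simp [ht]

theorem cntB_congr {p q : ℕ → Bool} {s : ℕ} (h : ∀ t < s, p t = q t) : cntB p s = cntB q s := by
  unfold cntB
  induction s with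
  | zero => simp
  | succ n ih =>
    rw [Nat.count_succ, Nat.count_succ, ih (fun t ht => h t (by omega)), h n (by omega)]

theorem lastB_lt {p : ℕ → Bool} {s : ℕ} (hs : 0 < s) : lastB p s < s := by
  unfold lastB
  by_cases h : Nat.findGreatest (fun t => t < s ∧ p t = true) s = 0
  · omega
  · exact (Nat.findGreatest_of_ne_zero rfl h).1

theorem lastB_spec {p : ℕ → Bool} {s : ℕ} (h : lastB p s ≠ 0) : p (lastB p s) = true :=
  (Nat.findGreatest_of_ne_zero rfl h).2

theorem le_lastB {p : ℕ → Bool} {s t : ℕ} (ht : t < s) (hp : p t = true) : t ≤ lastB p s :=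
  Nat.le_findGreatest ht.le ⟨ht, hp⟩

theorem lastB_mono {p : ℕ → Bool} {s s' : ℕ} (h : s ≤ s') : lastB p s ≤ lastB p s' := by
  by_cases h0 : lastB p s = 0
  · omega
  · have h1 : lastB p s < s := (Nat.findGreatest_of_ne_zero rfl h0).1
    exact le_lastB (by omega) (lastB_spec h0)

/-! ### computable functions -/

@[fun_prop] theorem c_id : Computable (fun x : α => x) := Computable.id
@[fun_prop] theorem c_const (c : σ) : Computable (fun _ : α => c) := Computable.const c
@[fun_prop] theorem c_comp {f : β → σ} {g : α → β} (hf : Computable f) (hg : Computable g) :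
    Computable (fun a => f (g a)) := hf.comp hg
@[fun_prop] theorem c_pair {f : α → β} {g : α → γ} (hf : Computable f) (hg : Computable g) :
    Computable (fun a => (f a, g a)) := hf.pair hg
@[fun_prop] theorem c_fst {f : α → β × γ} (hf : Computable f) : Computable (fun a => (f a).1) :=
  Computable.fst.comp hf
@[fun_prop] theorem c_snd {f : α → β × γ} (hf : Computable f) : Computable (fun a => (f a).2) :=
  Computable.snd.comp hf
@[fun_prop] theorem c_of_p {f : α → β} (hf : Primrec f) : Computable f := hf.to_comp
@[fun_prop] theorem c_cond {c : α → Bool} {f g : α → σ} (hc : Computable c) (hf : Computable f)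
    (hg : Computable g) : Computable (fun a => bif c a then f a else g a) :=
  Computable.cond hc hf hg
@[fun_prop] theorem c_declt {f g : α → ℕ} (hf : Computable f) (hg : Computable g) :
    Computable (fun a => decide (f a < g a)) := Primrec.nat_lt.decide.to_comp.comp hf hg
@[fun_prop] theorem c_decle {f g : α → ℕ} (hf : Computable f) (hg : Computable g) :
    Computable (fun a => decide (f a ≤ g a)) := Primrec.nat_le.decide.to_comp.comp hf hg
@[fun_prop] theorem c_deceq [DecidableEq β] {f g : α → β} (hf : Computable f) (hg : Computable g) :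
    Computable (fun a => decide (f a = g a)) := Primrec.eq.decide.to_comp.comp hf hg
@[fun_prop] theorem c_elim {f : α → β ⊕ γ} {g : α → β → σ} {h : α → γ → σ} (hf : Computable f)
    (hg : Computable fun x : α × β => g x.1 x.2) (hh : Computable fun x : α × γ => h x.1 x.2) :
    Computable (fun a => Sum.elim (g a) (h a) (f a)) :=
  (Computable.sumCasesOn hf hg hh).of_eq fun a => by cases f a <;> rfl

end Pool.Agent.P.MP_d6faff_lc
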