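import Pool.Agent.P.MP_d6faff_lc.Tree

/-! The combinatorial core: the requirements are met. -/

open Encodable

namespace Pool.Agent.P.MP_d6faff_lc

/-- number of visits to `ρ` before stage `s` -/
def kv (ρ : Site) (s : ℕ) : ℕ := kk rcd ρ s

/-- parity-respecting assignments of bits to binary strings -/
def IsG (x : Site → Bool) : Prop := ∀ σ, x σ = xor (x (false :: σ)) (x (true :: σ))

/-- `m` is at most the length of the path hanging at the twin `b` of `σ` -/
def Lab (σ : Site) (b : Bool) (m : ℕ) : Prop := ∃ s, m ≤ kv σ s + bif b then 1 else 0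

@[fun_prop] theorem p_kv {α : Type} [Primcodable α] {ρ : α → Site} {s : α → ℕ}
    (hρ : Primrec ρ) (hs : Primrec s) : Primrec fun a => kv (ρ a) (s a) := by
  unfold kv
  fun_prop

theorem kv_succ_of {ρ : Site} {s : ℕ} (h : ρ <:+ vis s) : kv ρ (s + 1) = kv ρ s + 1 := by
  unfold kv kk cntB
  rw [Nat.count_succ]
  exact congrArg _ (if_pos (sfx_iff.2 h))

theorem kv_succ_of_not {ρ : Site} {s : ℕ} (h : ¬ ρ <:+ vis s) : kv ρ (s + 1) = kv ρ s := by
  unfold kv kk cntB
  rw [Nat.count_succ]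
  exact congrArg _ (if_neg (fun h' => h (sfx_iff.1 h')))

theorem kv_mono (ρ : Site) {s s' : ℕ} (h : s ≤ s') : kv ρ s ≤ kv ρ s' :=
  Nat.count_monotone _ h

theorem kv_const {ρ : Site} {s s' : ℕ} (h : s ≤ s') (hn : ∀ u, s ≤ u → u < s' → ¬ ρ <:+ vis u) :
    kv ρ s' = kv ρ s := by
  induction s', h using Nat.le_induction with
  | base => rfl
  | succ m hm ih =>
    rw [kv_succ_of_not (hn m hm (by omega)), ih fun u h1 h2 => hn u h1 (by omega)]

theorem Alive.lab {ρ : Site} (h : Alive ρ) (b : Bool) (m : ℕ) : Lab ρ b m := by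
  have : ∃ s, m ≤ kv ρ s := by
    induction m with
    | zero => exact ⟨0, Nat.zero_le _⟩
    | succ m ih =>
      obtain ⟨s, hs⟩ := ih
      obtain ⟨u, h1, h2⟩ := h s
      have := kv_mono ρ h1
      exact ⟨u + 1, by rw [kv_succ_of h2]; omega⟩
  obtain ⟨s, hs⟩ := this
  exact ⟨s, by omega⟩

theorem not_alive_iff {ρ : Site} : ¬ Alive ρ ↔ ∃ B, ∀ u, B ≤ u → ¬ ρ <:+ vis u := by
  unfold Alive
  push Not
  rfl

theorem lab_dead {ρ : Site} {B : ℕ} (h : ∀ u, B ≤ u → ¬ ρ <:+ vis u) {s : ℕ} (hs : B ≤ s)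
    {b : Bool} : Lab ρ b (kv ρ s + 1) ↔ b = true := by
  constructor
  · rintro ⟨s', hs'⟩
    have h1 : kv ρ s' ≤ kv ρ s := by
      rcases le_total s' s with h2 | h2
      · exact kv_mono ρ h2
      · exact (kv_const h2 fun u h3 _ => h u (by omega)).le
    cases b
    · simp only [cond_false] at hs'
      omega
    · rfl
  · rintro rfl
    exact ⟨s, le_rfl⟩

theorem alive_of_lab {ρ : Site} (h : ∀ m, Lab ρ true m → Lab ρ false m) : Alive ρ := by
  by_contra hn
  obtain ⟨B, hB⟩ := not_alive_iff.1 hn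
  have := (lab_dead hB le_rfl).1 (h _ ((lab_dead hB le_rfl).2 rfl))
  simp at this

theorem alive_nil : Alive [] := fun B => ⟨B, le_rfl, List.nil_suffix⟩

theorem Alive.child {ρ : Site} (h : Alive ρ) : ∃ d, Alive (d :: ρ) := by
  by_contra hn
  push Not at hn
  obtain ⟨B0, h0⟩ := not_alive_iff.1 (hn false)
  obtain ⟨B1, h1⟩ := not_alive_iff.1 (hn true)
  obtain ⟨u, hu, l, hl⟩ := h (max (max B0 B1) (ρ.length + 1))
  have hlen := vis_length u
  rcases List.eq_nil_or_concat l with rfl | ⟨l', d, rfl⟩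
  · rw [← hl, List.nil_append] at hlen
    omega
  · have : d :: ρ <:+ vis u := ⟨l', by rw [← hl]; simp⟩
    cases d
    · exact h0 u (by omega) this
    · exact h1 u (by omega) this

theorem exists_path (P : Site → Prop) (h0 : P []) (hs : ∀ ρ, P ρ → ∃ d, P (d :: ρ)) :
    ∃ p, IsPath p ∧ ∀ n, P (p n) := by
  choose! f hf using hs
  let p : ℕ → Site := fun n => Nat.rec [] (fun _ ρ => f ρ :: ρ) n
  refine ⟨p, ⟨rfl, fun n => ⟨_, rfl⟩⟩, fun n => ?_⟩
  induction n with
  | zero => exact h0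
  | succ n ih => exact hf _ ih

/-- there is an odd assignment supported on alive strings -/
theorem exists_odd : ∃ x, IsG x ∧ x [] = true ∧ ∀ σ, x σ = true → Alive σ := by
  classical
  obtain ⟨p, hp, ha⟩ := exists_path Alive alive_nil fun ρ h => h.child
  refine ⟨fun σ => decide (σ = p σ.length), fun σ => ?_, by simp [hp.zero], fun σ h => ?_⟩
  · obtain ⟨d, hd⟩ := hp.succ σ.length
    simp only [List.length_cons, hd, List.cons.injEq]
    by_cases h : σ = p σ.length
    · cases d <;> simp [← h]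
    · simp [h]
  · rw [decide_eq_true_iff] at h
    rw [h]
    exact ha _

/-- no computable odd assignment is supported on alive strings -/
theorem no_computable_odd {x : Site → Bool} (hc : Computable x) (hG : IsG x) (h0 : x [] = true)
    (ha : ∀ σ, x σ = true → Alive σ) : False := by
  have hS : Sig fun y : Site × ℕ × Bool => x y.1 = true := Sig.ofBool (by fun_prop)
  obtain ⟨e, he⟩ := hS.exists_index
  obtain ⟨p, hp, hx⟩ := exists_path (fun σ => x σ = true) h0 fun ρ h => by
    have := hG ρ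
    rw [h] at this
    cases h1 : x (false :: ρ)
    · exact ⟨true, by simpa [h1] using this⟩
    · exact ⟨false, h1⟩
  obtain ⟨γ, h1, h2, h3⟩ := exists_good_on_path hp (fun n => ha _ (hx n)) (2 * e)
  obtain ⟨i, hi⟩ := hp.succ (site γ).length
  rw [← h3] at hi
  have hxi : x (i :: site γ) = true := hi ▸ hx _
  have hxs : x (site γ) = true := h3 ▸ hx _
  have hdir : ∀ s, dir γ s = univ e s ((false :: site γ, 0, false) : Site × ℕ × Bool) := by
    intro s
    unfold dir dcs
    rw [h1, show 2 * e % 2 = 0 by omega, show 2 * e / 2 = e by omega]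
    rfl
  have hG' := hG (site γ)
  cases hf : x (false :: site γ)
  · obtain ⟨s, -, -, hs⟩ := h2.acts_of_alive (ha _ hxi) 0
    cases i
    · rw [hf] at hxi
      simp at hxi
    · rw [hdir] at hs
      have := (he _).2 ⟨s, hs⟩
      dsimp only at this
      rw [hf] at this
      simp at this
  · obtain ⟨s0, hs0⟩ := (he (false :: site γ, 0, false)).1 hf
    obtain ⟨s, hle, -, hs⟩ := h2.acts_of_alive (ha _ hxi) s0
    rw [hdir, univ_mono hle hs0] at hs
    subst hs
    rw [hxs, hf, hxi] at hG'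
    simp at hG'

theorem encode_lt_cons (d : Bool) (τ : Site) : encode τ < encode (d :: τ) := by
  rw [encode_list_cons]
  have := Nat.right_le_pair (encode d) (encode τ)
  omega

theorem length_le_encode (τ : Site) : τ.length ≤ encode τ := by
  induction τ with
  | nil => simp
  | cons d τ ih =>
    have := encode_lt_cons d τ
    simp only [List.length_cons]
    omega

section categoricity

variable {z : Site → Bool} {e : ℕ}

/-- the `e`-th enumerable set lists the path lengths of the copy twisted by `z` -/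
def Lists (e : ℕ) (z : Site → Bool) : Prop :=
  ∀ (d : Bool) (σ : Site) (k : ℕ) (b : Bool),
    (∃ s, univ e s ((d :: σ, k, b) : Site × ℕ × Bool) = true) ↔
      Lab (d :: σ) (xor b (z (d :: σ))) (k + 1)

/-- a computable assignment that is correct on the cone above `ρ` -/
def Cov (z : Site → Bool) (ρ : Site) : Prop :=
  ∃ z' : Site → Bool, Computable z' ∧
    (∀ τ, ρ <:+ τ → z' τ = xor (z' (false :: τ)) (z' (true :: τ))) ∧
    ∀ τ, ρ <:+ τ → ¬ Alive τ → z' τ = z τ

theorem Lists.dead (hL : Lists e z) {τ : Site} {B : ℕ} (h : ∀ u, B ≤ u → ¬ τ <:+ vis u) {s : ℕ}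
    (hs : B ≤ s) {b : Bool} :
    (∃ s', univ e s' ((τ, kv τ s, b) : Site × ℕ × Bool) = true) ↔ b = !(z τ) := by
  cases τ with
  | nil => exact absurd List.nil_suffix (h B le_rfl)
  | cons d σ =>
    rw [hL, lab_dead h hs]
    cases b <;> cases z (d :: σ) <;> simp

theorem cov_dead (hL : Lists e z) (hG : IsG z) {ρ : Site} (hρ : ¬ Alive ρ) : Cov z ρ := by
  obtain ⟨B, hB⟩ := not_alive_iff.1 hρ
  have hS : Sig fun y : Site × Bool => (!(sfx ρ y.1)) = true ∨
      ∃ s, univ e s ((y.1, kv y.1 B, !y.2) : Site × ℕ × Bool) = true :=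
    Sig.or (Sig.ofBool (by fun_prop)) (Sig.ex (p := fun w : (Site × Bool) × ℕ =>
      univ e w.2 ((w.1.1, kv w.1.1 B, !w.1.2) : Site × ℕ × Bool) = true)
      (Sig.ofBool (by fun_prop)))
  have hd : ∀ τ, ρ <:+ τ → ∀ u, B ≤ u → ¬ τ <:+ vis u := fun τ h u hu h' => hB u hu (h.trans h')
  obtain ⟨f, hf, H⟩ := Sig.unif_tot (R := fun (τ : Site) (b : Bool) => (!(sfx ρ τ)) = true ∨
      ∃ s, univ e s ((τ, kv τ B, !b) : Site × ℕ × Bool) = true) hS (fun τ => by
    by_cases h : ρ <:+ τ
    · exact ⟨z τ, Or.inr ((hL.dead (hd τ h) le_rfl).2 rfl)⟩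
    · exact ⟨false, Or.inl (by simpa [← sfx_iff] using h)⟩)
  have hfz : ∀ τ, ρ <:+ τ → f τ = z τ := fun τ h => by
    rcases H τ with h1 | h1
    · simp [sfx_iff.2 h] at h1
    · simpa using (hL.dead (hd τ h) le_rfl).1 h1
  refine ⟨f, hf, fun τ h => ?_, fun τ h _ => hfz τ h⟩
  rw [hfz τ h, hfz _ (h.trans (List.suffix_cons _ _)), hfz _ (h.trans (List.suffix_cons _ _))]
  exact hG τ

theorem cov_glue {ρ : Site} (hρ : Alive ρ) (h0 : Cov z (false :: ρ)) (h1 : Cov z (true :: ρ)) :
    Cov z ρ := by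
  obtain ⟨f, hf, f1, f2⟩ := h0
  obtain ⟨g, hg, g1, g2⟩ := h1
  let z' : Site → Bool := fun τ => bif sfx (false :: ρ) τ then f τ else
    bif sfx (true :: ρ) τ then g τ else xor (f (false :: ρ)) (g (true :: ρ))
  have e0 : ∀ τ, false :: ρ <:+ τ → z' τ = f τ := fun τ h => by simp [z', sfx_iff.2 h]
  have e1 : ∀ τ, true :: ρ <:+ τ → z' τ = g τ := fun τ h => by
    have : sfx (false :: ρ) τ = false := by
      by_contra hn
      have := suffix_cons_unique (sfx_iff.1 (by simpa using hn)) h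
      simp at this
    simp [z', sfx_iff.2 h, this]
  have e2 : z' ρ = xor (f (false :: ρ)) (g (true :: ρ)) := by
    have hn : ∀ d : Bool, sfx (d :: ρ) ρ = false := fun d => by
      by_contra hn
      have := (sfx_iff.1 (by simpa using hn)).length_le
      simp at this
    simp [z', hn]
  have hc : ∀ τ, ρ <:+ τ → τ = ρ ∨ false :: ρ <:+ τ ∨ true :: ρ <:+ τ := by
    rintro τ ⟨l, rfl⟩
    rcases List.eq_nil_or_concat l with rfl | ⟨l', d, rfl⟩
    · exact Or.inl rfl
    · cases d
      · exact Or.inr (Or.inl ⟨l', by simp⟩)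
      · exact Or.inr (Or.inr ⟨l', by simp⟩)
  refine ⟨z', by fun_prop, fun τ h => ?_, fun τ h hd => ?_⟩
  · rcases hc τ h with rfl | h | h
    · rw [e2, e0 _ List.suffix_rfl, e1 _ List.suffix_rfl]
    · rw [e0 _ h, e0 _ (h.trans (List.suffix_cons _ _)), e0 _ (h.trans (List.suffix_cons _ _))]
      exact f1 τ h
    · rw [e1 _ h, e1 _ (h.trans (List.suffix_cons _ _)), e1 _ (h.trans (List.suffix_cons _ _))]
      exact g1 τ h
  · rcases hc τ h with rfl | h | h
    · exact absurd hρ hd
    · rw [e0 _ h]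
      exact f2 τ h hd
    · rw [e1 _ h]
      exact g2 τ h hd

theorem beta_ev (hL : Lists e z) {τ : Site} (h : ¬ Alive τ) :
    ∀ᶠ s in Filter.atTop, beta rcd e s τ = z τ ∧ dfd rcd e s τ = true := by
  obtain ⟨B, hB⟩ := not_alive_iff.1 h
  obtain ⟨s0, hs0⟩ := (hL.dead hB le_rfl (b := !(z τ))).2 rfl
  refine Filter.eventually_atTop.2 ⟨max B s0, fun s hs => ?_⟩
  have hk : kk rcd τ s = kv τ B := kv_const (by omega) fun u h1 _ => hB u h1
  have h1 := univ_mono (show s0 ≤ s by omega) hs0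
  have h2 : univ e s ((τ, kv τ B, z τ) : Site × ℕ × Bool) = false := by
    by_contra hn
    have := (hL.dead hB le_rfl (b := z τ)).1 ⟨s, by simpa using hn⟩
    simp at this
  unfold beta dfd
  rw [hk]
  cases hz : z τ <;> simp only [hz, Bool.not_false, Bool.not_true] at h1 h2 <;> simp [h1, h2]

theorem resp_ev (hL : Lists e z) (hG : IsG z) {ρ : Site} (h : ¬ Alive ρ) (d : ℕ) :
    ∀ᶠ s in Filter.atTop, resp rcd e s ρ d = true := by
  have : ∀ᶠ s in Filter.atTop, ∀ n ∈ Finset.range d,
      okAt rcd e s ρ ((decode n : Option Site).getD []) = true := by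
    rw [Filter.eventually_all_finset]
    intro n _
    generalize (decode n : Option Site).getD [] = τ
    by_cases hτ : ρ <:+ τ
    · have d0 : ¬ Alive τ := fun ha => h (ha.of_suffix hτ)
      have d1 : ¬ Alive (false :: τ) := fun ha => d0 (ha.of_suffix (List.suffix_cons _ _))
      have d2 : ¬ Alive (true :: τ) := fun ha => d0 (ha.of_suffix (List.suffix_cons _ _))
      filter_upwards [beta_ev hL d0, beta_ev hL d1, beta_ev hL d2] with s a0 a1 a2
      unfold okAt
      rw [a0.1, a1.1, a2.1, a1.2, a2.2, ← hG τ]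
      simp
    · refine Filter.Eventually.of_forall fun s => ?_
      have : sfx ρ τ = false := by simpa [← sfx_iff] using hτ
      simp [okAt, this]
  filter_upwards [this] with s hs
  unfold resp
  rw [allB_iff]
  exact fun n hn => hs n (Finset.mem_range.2 hn)

theorem resp_spec {s d : ℕ} {ρ τ : Site} (h : resp rcd e s ρ d = true) (hτ : ρ <:+ τ)
    (hd : encode τ < d) : dfd rcd e s (false :: τ) = true ∧ dfd rcd e s (true :: τ) = true ∧
      beta rcd e s τ = xor (beta rcd e s (false :: τ)) (beta rcd e s (true :: τ)) := by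
  unfold resp at h
  have := allB_iff.1 h _ hd
  simpa [okAt, sfx_iff.2 hτ, and_assoc] using this

theorem beta_stable {s s' : ℕ} {τ : Site} (hs : s ≤ s') (hk : kv τ s' = kv τ s)
    (h : dfd rcd e s τ = true) (h' : dfd rcd e s' τ = true) :
    beta rcd e s τ = beta rcd e s' τ := by
  unfold beta dfd at *
  unfold kv at hk
  rw [hk] at h' ⊢
  have m0 := univ_mono (e := e) (a := ((τ, kk rcd τ s, false) : Site × ℕ × Bool)) hs
  have m1 := univ_mono (e := e) (a := ((τ, kk rcd τ s, true) : Site × ℕ × Bool)) hs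
  revert h h' m0 m1
  cases univ e s ((τ, kk rcd τ s, false) : Site × ℕ × Bool) <;>
  cases univ e s ((τ, kk rcd τ s, true) : Site × ℕ × Bool) <;>
  cases univ e s' ((τ, kk rcd τ s, false) : Site × ℕ × Bool) <;>
  cases univ e s' ((τ, kk rcd τ s, true) : Site × ℕ × Bool) <;> simp

/-- a switching stage of `γ` -/
def Sw (γ : Node) (t : ℕ) : Prop := Acts γ t ∧ out γ t < 2

theorem sw_iff {γ : Node} {t : ℕ} :
    (actLt rcd γ false 2 t || actLt rcd γ true 2 t) = true ↔ Sw γ t := by
  rw [Bool.or_eq_true, actLt_iff, actLt_iff, Sw]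
  cases dir γ t <;> simp

theorem le_tsw {γ : Node} {t s : ℕ} (h : Sw γ t) (hts : t < s) : t ≤ tsw rcd γ s :=
  le_lastB hts (sw_iff.2 h)

theorem tsw_const {γ : Node} {s s' : ℕ} (h : s ≤ s') (hn : ∀ u, s ≤ u → u < s' → ¬ Sw γ u) :
    tsw rcd γ s' = tsw rcd γ s := by
  refine le_antisymm ?_ (lastB_mono h)
  by_cases h0 : tsw rcd γ s' = 0
  · omega
  · have h1 : Sw γ (tsw rcd γ s') := sw_iff.1 (lastB_spec h0)
    have h2 : tsw rcd γ s' < s' := lastB_lt (by
      rcases Nat.eq_zero_or_pos s' with rfl | h3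
      · exact absurd rfl h0
      · exact h3)
    refine le_tsw h1 ?_
    by_contra h3
    exact hn _ (not_lt.1 h3) h2 h1

section node

variable {γ : Node} (hγ : γ.length = 2 * e + 1)
include hγ

theorem dcs_odd (s : ℕ) : dcs rcd γ (site γ) s =
    bif resp rcd e s ((!(isw rcd γ s)) :: site γ) (tsw rcd γ s) then
      (!(isw rcd γ s), bif beta rcd e s ((!(isw rcd γ s)) :: site γ) then 1 else 0)
    else (isw rcd γ s, 2) := by
  unfold dcs
  rw [hγ, show (2 * e + 1) % 2 = 1 by omega, show (2 * e + 1) / 2 = e by omega]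
  rfl

theorem of_out_lt {s : ℕ} (h : out γ s < 2) : dir γ s = !(isw rcd γ s) ∧
    resp rcd e s (dir γ s :: site γ) (tsw rcd γ s) = true ∧
    beta rcd e s (dir γ s :: site γ) = decide (out γ s = 1) := by
  unfold out dir at *
  rw [dcs_odd hγ] at *
  cases hr : resp rcd e s ((!(isw rcd γ s)) :: site γ) (tsw rcd γ s)
  · simp [hr] at h
  · simp only [cond_true, hr, true_and]
    cases beta rcd e s ((!(isw rcd γ s)) :: site γ) <;> simp

theorem of_not_out_lt {s : ℕ} (h : ¬ out γ s < 2) : dir γ s = isw rcd γ s ∧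
    resp rcd e s ((!(isw rcd γ s)) :: site γ) (tsw rcd γ s) = false := by
  unfold out dir at *
  rw [dcs_odd hγ] at *
  cases hr : resp rcd e s ((!(isw rcd γ s)) :: site γ) (tsw rcd γ s)
  · simp
  · exfalso
    apply h
    simp only [cond_true, hr]
    cases beta rcd e s ((!(isw rcd γ s)) :: site γ) <;> simp

theorem sw_inf (hL : Lists e z) (hG : IsG z) (hg : Good γ) (B : ℕ) : ∃ s, B ≤ s ∧ Sw γ s := by
  by_contra hn
  push Not at hn
  have ht : ∀ s, B ≤ s → tsw rcd γ s = tsw rcd γ B := fun s hs =>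
    tsw_const hs fun u h1 _ => hn u h1
  have hi : ∀ s, B ≤ s → isw rcd γ s = isw rcd γ B := fun s hs => by
    unfold isw
    rw [ht s hs]
  have hd : ¬ Alive ((!(isw rcd γ B)) :: site γ) := fun ha => by
    obtain ⟨s, h1, h2, h3⟩ := hg.acts_of_alive ha B
    have := (of_not_out_lt hγ fun h => hn s h1 ⟨h2, h⟩).1
    rw [h3, hi s h1] at this
    simp at this
  obtain ⟨B', hB'⟩ := Filter.eventually_atTop.1 (resp_ev hL hG hd (tsw rcd γ B))
  obtain ⟨s, h1, h2⟩ := hg.1 (max (max B B') ((site γ).length + 1))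
  have := (of_not_out_lt hγ fun h => hn s (by omega) ⟨⟨h2, by omega⟩, h⟩).2
  rw [hi s (by omega), ht s (by omega), hB' s (by omega)] at this
  simp at this

theorem sw_inf_dir (hL : Lists e z) (hG : IsG z) (hg : Good γ) (i : Bool) (B : ℕ) :
    ∃ s, B ≤ s ∧ Acts γ s ∧ dir γ s = i ∧ out γ s ≤ 1 := by
  classical
  obtain ⟨s, h1, h2⟩ := sw_inf hγ hL hG hg B
  by_cases hd : dir γ s = i
  · exact ⟨s, h1, h2.1, hd, by have := h2.2; omega⟩
  · have hex := sw_inf hγ hL hG hg (s + 1)
    obtain ⟨h3, h4⟩ := Nat.find_spec hex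
    refine ⟨Nat.find hex, by omega, h4.1, ?_, by have := h4.2; omega⟩
    have h5 : tsw rcd γ (Nat.find hex) = tsw rcd γ (s + 1) :=
      tsw_const h3 fun u a b c => Nat.find_min hex b ⟨a, c⟩
    have h6 : tsw rcd γ (s + 1) = s := by
      have a : s ≤ tsw rcd γ (s + 1) := le_tsw h2 (Nat.lt_succ_self s)
      have b : tsw rcd γ (s + 1) < s + 1 := lastB_lt (by omega)
      omega
    rw [(of_out_lt hγ h4.2).1, isw, h5, h6]
    cases hi : actLt rcd γ true 2 s
    · have : dir γ s = false := by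
        by_contra hn
        have := actLt_iff.2 ⟨h2.1, by simpa using hn, h2.2⟩
        rw [hi] at this
        simp at this
      cases i
      · exact absurd this hd
      · rfl
    · have := (actLt_iff.1 hi).2.1
      cases i
      · rfl
      · exact absurd this hd

theorem visit_facts {i : Bool} {o t s : ℕ} (ho : o ≤ 1) (h : (i, o, t) :: γ <:+ nu s) :
    resp rcd e s (i :: site γ) (tsw rcd γ s) = true ∧
    beta rcd e s (i :: site γ) = decide (o = 1) ∧ tsw rcd γ s < s := by
  obtain ⟨h1, rfl, rfl, -⟩ := visit_iff.1 h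
  have := of_out_lt hγ (s := s) (by omega)
  have h2 := h1.2
  exact ⟨this.2.1, this.2.2, lastB_lt (by omega)⟩

theorem agree_next {i : Bool} {o t s s' : ℕ} (ho : o ≤ 1) (hg : Good ((i, o, t) :: γ))
    (h : (i, o, t) :: γ <:+ nu s) (h' : (i, o, t) :: γ <:+ nu s') (hss : s ≤ s')
    (hn : ∀ v, s < v → v < s' → ¬ (i, o, t) :: γ <:+ nu v) (τ : Site) (hτ : i :: site γ <:+ τ)
    (hd : encode τ < tsw rcd γ s) : beta rcd e s τ = beta rcd e s' τ := by
  obtain ⟨a1, a2, a3⟩ := visit_facts hγ ho h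
  obtain ⟨b1, b2, -⟩ := visit_facts hγ ho h'
  have hm : tsw rcd γ s ≤ tsw rcd γ s' := lastB_mono hss
  induction τ with
  | nil => simp at hτ
  | cons a τ ih =>
    rcases List.suffix_cons_iff.1 hτ with hτ' | hτ'
    · rw [← hτ', a2, b2]
    · have hd' : encode τ < tsw rcd γ s := (encode_lt_cons a τ).trans hd
      have ih' := ih hτ' hd'
      obtain ⟨c1, c2, c3⟩ := resp_spec a1 hτ' hd'
      obtain ⟨d1, d2, d3⟩ := resp_spec b1 hτ' (by omega)
      have hlen : τ.length + 1 ≤ s := by
        have := length_le_encode τ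
        omega
      have off : ∀ c : Bool, ¬ c :: τ <:+ vis s → kv (c :: τ) s' = kv (c :: τ) s := fun c hc =>
        kv_const hss fun u h1 h2 h3 => hc (List.suffix_of_suffix_length_le h3
          (hg.2 s u h1 h (fun v v1 v2 => hn v v1 (by omega))
            (hτ'.trans ((List.suffix_cons _ _).trans h3)))
          (by rw [vis_length]; simpa using hlen))
      by_cases h0 : false :: τ <:+ vis s
      · have h1 : ¬ true :: τ <:+ vis s := fun h1 => by
          have := suffix_cons_unique h0 h1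
          simp at this
        have e1 := beta_stable hss (off _ h1) c2 d2
        cases a
        · rw [c3, d3, e1] at ih'
          simpa using ih'
        · exact e1
      · have e0 := beta_stable hss (off _ h0) c1 d1
        cases a
        · exact e0
        · rw [c3, d3, e0] at ih'
          simpa using ih'

theorem agree {i : Bool} {o t s s' : ℕ} (ho : o ≤ 1) (hg : Good ((i, o, t) :: γ))
    (h : (i, o, t) :: γ <:+ nu s) (h' : (i, o, t) :: γ <:+ nu s') (hss : s ≤ s')
    (τ : Site) (hτ : i :: site γ <:+ τ) (hd : encode τ < tsw rcd γ s) :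
    beta rcd e s τ = beta rcd e s' τ := by
  induction s' using Nat.strong_induction_on with
  | _ s' IH =>
  rcases hss.eq_or_lt with rfl | hlt
  · rfl
  · obtain ⟨w, h1, h2, h3, h4⟩ :=
      exists_last (fun v => (i, o, t) :: γ <:+ nu v) h (show s ≤ s' - 1 by omega)
    have hm : tsw rcd γ s ≤ tsw rcd γ w := lastB_mono h1
    rw [IH w (by omega) h3 h1]
    exact agree_next hγ ho hg h3 h' (by omega) (fun v a b => h4 v a (by omega)) τ hτ (by omega)

theorem cov_node (hL : Lists e z) (hG : IsG z) (hg : Good γ) (i : Bool) :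
    Cov z (i :: site γ) := by
  obtain ⟨o, t, ho, hc⟩ := hg.exists_child (sw_inf_dir hγ hL hG hg i)
  have big : ∀ d, ∃ s, d ≤ s ∧ (i, o, t) :: γ <:+ nu s ∧ d < tsw rcd γ s := fun d => by
    obtain ⟨s1, h1, h2⟩ := sw_inf hγ hL hG hg (d + 1)
    obtain ⟨s, h3, h4⟩ := hc.1 (s1 + 1)
    have := le_tsw h2 (show s1 < s from h3)
    exact ⟨s, by omega, h4, by omega⟩
  have hS : Sig fun y : Site × Bool => ∃ s, (sfx ((i, o, t) :: γ) (rcd s).1 &&
      (decide (encode y.1 < tsw rcd γ s) && decide (beta rcd e s y.1 = y.2))) = true :=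
    Sig.ex (p := fun w : (Site × Bool) × ℕ => (sfx ((i, o, t) :: γ) (rcd w.2).1 &&
      (decide (encode w.1.1 < tsw rcd γ w.2) && decide (beta rcd e w.2 w.1.1 = w.1.2))) = true)
      (Sig.ofBool (Primrec.to_comp (by fun_prop)))
  obtain ⟨f, hf, H⟩ := Sig.unif_tot (R := fun (τ : Site) (b : Bool) =>
      ∃ s, (sfx ((i, o, t) :: γ) (rcd s).1 &&
      (decide (encode τ < tsw rcd γ s) && decide (beta rcd e s τ = b))) = true) hS (fun τ => by
    obtain ⟨s, -, h1, h2⟩ := big (encode τ)
    exact ⟨beta rcd e s τ, s, by simp [sfx_iff.2 (show _ <:+ (rcd s).1 from h1), h2]⟩)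
  have hfb : ∀ τ s, i :: site γ <:+ τ → (i, o, t) :: γ <:+ nu s → encode τ < tsw rcd γ s →
      f τ = beta rcd e s τ := fun τ s h1 h2 h3 => by
    obtain ⟨s', hs'⟩ := H τ
    simp only [Bool.and_eq_true, decide_eq_true_eq, sfx_iff] at hs'
    obtain ⟨a1, a2, a3⟩ := hs'
    rw [← a3]
    rcases le_total s s' with h | h
    · exact (agree hγ ho hc h2 a1 h τ h1 h3).symm
    · exact agree hγ ho hc a1 h2 h τ h1 a2
  refine ⟨f, hf, fun τ hτ => ?_, fun τ hτ hd => ?_⟩
  · obtain ⟨s, -, h1, h2⟩ := big (max (encode (false :: τ)) (encode (true :: τ)))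
    have h3 := encode_lt_cons false τ
    rw [hfb τ s hτ h1 (by omega), hfb _ s (hτ.trans (List.suffix_cons _ _)) h1 (by omega),
      hfb _ s (hτ.trans (List.suffix_cons _ _)) h1 (by omega)]
    exact (resp_spec (visit_facts hγ ho h1).1 hτ (by omega)).2.2
  · obtain ⟨B, hB⟩ := Filter.eventually_atTop.1 (beta_ev hL hd)
    obtain ⟨s, h0, h1, h2⟩ := big (max B (encode τ))
    rw [hfb τ s hτ h1 (by omega)]
    exact (hB s (by omega)).1

end node

/-- every enumerable twisted copy is matched by a computable twist -/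
theorem exists_computable_twist (hG : IsG z) {S : Site × ℕ × Bool → Prop} (hS : Sig S)
    (h : ∀ (d : Bool) (σ : Site) (k : ℕ) (b : Bool),
      S (d :: σ, k, b) ↔ Lab (d :: σ) (xor b (z (d :: σ))) (k + 1)) :
    ∃ z' : Site → Bool, Computable z' ∧ IsG z' ∧ ∀ τ, ¬ Alive τ → z' τ = z τ := by
  obtain ⟨e, he⟩ := hS.exists_index
  have hL : Lists e z := fun d σ k b => by rw [← he, h]
  have : Cov z [] := by
    by_contra hn
    obtain ⟨p, hp, hx⟩ := exists_path (fun σ => ¬ Cov z σ) hn fun ρ h => by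
      by_contra hc
      push Not at hc
      exact h (cov_glue (by by_contra ha; exact h (cov_dead hL hG ha)) (hc _) (hc _))
    obtain ⟨γ, h1, h2, h3⟩ := exists_good_on_path hp
      (fun n => by by_contra ha; exact hx n (cov_dead hL hG ha)) (2 * e + 1)
    obtain ⟨i, hi⟩ := hp.succ (site γ).length
    rw [← h3] at hi
    exact hx _ (hi ▸ cov_node h1 hL hG h2 i)
  obtain ⟨z', h1, h2, h3⟩ := this
  exact ⟨z', h1, fun τ => h2 τ List.nil_suffix, fun τ => h3 τ List.nil_suffix⟩

end categoricity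

end Pool.Agent.P.MP_d6faff_lc
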