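import Pool.Agent.P.MP_d6faff_lc.Sig

/-! The priority construction: a primitive recursive sequence of pairs (node of the tree of
strategies reached at stage `s`, binary string of length `s` visited at stage `s`).
Strings grow at the head, so an ancestor is a suffix. -/

open Encodable

namespace Pool.Agent.P.MP_d6faff_lc

abbrev Site := List Bool
abbrev Node := List (Bool × ℕ × ℕ)
abbrev Rc := Node × Site

section defs

variable (h : ℕ → Rc)

/-- number of visits to `ρ` before stage `s` -/
def kk (ρ : Site) (s : ℕ) : ℕ := cntB (fun t => sfx ρ (h t).2) s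

/-- at stage `t` the node `γ` acted in direction `i` with an outcome below `o` -/
def actLt (γ : Node) (i : Bool) (o t : ℕ) : Bool :=
  exB (fun o' => exB (fun t' => sfx ((i, o', t') :: γ) (h t).1) t) o

/-- current orientation of the `e`-th opponent at `ρ` -/
def beta (e s : ℕ) (ρ : Site) : Bool := univ e s ((ρ, kk h ρ s, false) : Site × ℕ × Bool)

/-- the current orientation of the `e`-th opponent at `ρ` is defined -/
def dfd (e s : ℕ) (ρ : Site) : Bool :=
  xor (univ e s ((ρ, kk h ρ s, false) : Site × ℕ × Bool))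
    (univ e s ((ρ, kk h ρ s, true) : Site × ℕ × Bool))

def okAt (e s : ℕ) (ρ τ : Site) : Bool :=
  !(sfx ρ τ) || (dfd h e s (false :: τ) && dfd h e s (true :: τ) &&
    decide (beta h e s τ = xor (beta h e s (false :: τ)) (beta h e s (true :: τ))))

/-- the `e`-th opponent has answered consistently on the cone above `ρ`, up to `d` -/
def resp (e s : ℕ) (ρ : Site) (d : ℕ) : Bool :=
  allB (fun n => okAt h e s ρ ((decode n : Option Site).getD [])) d

/-- last switching stage -/
def tsw (γ : Node) (s : ℕ) : ℕ := lastB (fun t => actLt h γ false 2 t || actLt h γ true 2 t) s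

/-- direction taken at the last switching stage -/
def isw (γ : Node) (s : ℕ) : Bool := actLt h γ true 2 (tsw h γ s)

/-- direction and outcome chosen by the node `γ` sitting at `σ` -/
def dcs (γ : Node) (σ : Site) (s : ℕ) : Bool × ℕ :=
  bif decide (γ.length % 2 = 0) then
    (univ (γ.length / 2) s ((false :: σ, 0, false) : Site × ℕ × Bool), 0)
  else bif resp h (γ.length / 2) s ((!(isw h γ s)) :: σ) (tsw h γ s) then
    (!(isw h γ s), bif beta h (γ.length / 2) s ((!(isw h γ s)) :: σ) then 1 else 0)
  else (isw h γ s, 2)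

def trip (γ : Node) (σ : Site) (s : ℕ) : Bool × ℕ × ℕ :=
  ((dcs h γ σ s).1, (dcs h γ σ s).2, lastB (actLt h γ (dcs h γ σ s).1 (dcs h γ σ s).2) s)

def step (s : ℕ) (r : Rc) : Rc :=
  bif decide (r.2.length < s) then
    (trip h r.1 r.2 s :: r.1,
      bif decide ((trip h r.1 r.2 s).2.2 = 0) then (trip h r.1 r.2 s).1 :: r.2
      else (h (trip h r.1 r.2 s).2.2).2)
  else r

def stage (s : ℕ) : Rc := (step h s)^[s] ([], [])

end defs

section prim

variable {α : Type} [Primcodable α] {h : α → ℕ → Rc}

@[fun_prop] theorem p_kk (hh : Primrec fun x : α × ℕ => h x.1 x.2) {ρ : α → Site} {s : α → ℕ}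
    (hρ : Primrec ρ) (hs : Primrec s) : Primrec fun a => kk (h a) (ρ a) (s a) := by
  unfold kk
  fun_prop

@[fun_prop] theorem p_actLt (hh : Primrec fun x : α × ℕ => h x.1 x.2) {γ : α → Node}
    {i : α → Bool} {o t : α → ℕ} (hγ : Primrec γ) (hi : Primrec i) (ho : Primrec o)
    (ht : Primrec t) : Primrec fun a => actLt (h a) (γ a) (i a) (o a) (t a) := by
  unfold actLt
  fun_prop

@[fun_prop] theorem p_beta (hh : Primrec fun x : α × ℕ => h x.1 x.2) {ρ : α → Site}
    {e s : α → ℕ} (he : Primrec e) (hs : Primrec s) (hρ : Primrec ρ) :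
    Primrec fun a => beta (h a) (e a) (s a) (ρ a) := by
  unfold beta
  fun_prop

@[fun_prop] theorem p_dfd (hh : Primrec fun x : α × ℕ => h x.1 x.2) {ρ : α → Site}
    {e s : α → ℕ} (he : Primrec e) (hs : Primrec s) (hρ : Primrec ρ) :
    Primrec fun a => dfd (h a) (e a) (s a) (ρ a) := by
  unfold dfd
  fun_prop

@[fun_prop] theorem p_okAt (hh : Primrec fun x : α × ℕ => h x.1 x.2) {ρ τ : α → Site}
    {e s : α → ℕ} (he : Primrec e) (hs : Primrec s) (hρ : Primrec ρ) (hτ : Primrec τ) :
    Primrec fun a => okAt (h a) (e a) (s a) (ρ a) (τ a) := by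
  unfold okAt
  fun_prop

@[fun_prop] theorem p_resp (hh : Primrec fun x : α × ℕ => h x.1 x.2) {ρ : α → Site}
    {e s d : α → ℕ} (he : Primrec e) (hs : Primrec s) (hρ : Primrec ρ) (hd : Primrec d) :
    Primrec fun a => resp (h a) (e a) (s a) (ρ a) (d a) := by
  unfold resp
  fun_prop

@[fun_prop] theorem p_tsw (hh : Primrec fun x : α × ℕ => h x.1 x.2) {γ : α → Node}
    {s : α → ℕ} (hγ : Primrec γ) (hs : Primrec s) :
    Primrec fun a => tsw (h a) (γ a) (s a) := by
  unfold tsw
  fun_prop

@[fun_prop] theorem p_isw (hh : Primrec fun x : α × ℕ => h x.1 x.2) {γ : α → Node}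
    {s : α → ℕ} (hγ : Primrec γ) (hs : Primrec s) :
    Primrec fun a => isw (h a) (γ a) (s a) := by
  unfold isw
  fun_prop

@[fun_prop] theorem p_dcs (hh : Primrec fun x : α × ℕ => h x.1 x.2) {γ : α → Node}
    {σ : α → Site} {s : α → ℕ} (hγ : Primrec γ) (hσ : Primrec σ) (hs : Primrec s) :
    Primrec fun a => dcs (h a) (γ a) (σ a) (s a) := by
  unfold dcs
  fun_prop

@[fun_prop] theorem p_trip (hh : Primrec fun x : α × ℕ => h x.1 x.2) {γ : α → Node}
    {σ : α → Site} {s : α → ℕ} (hγ : Primrec γ) (hσ : Primrec σ) (hs : Primrec s) :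
    Primrec fun a => trip (h a) (γ a) (σ a) (s a) := by
  unfold trip
  fun_prop

@[fun_prop] theorem p_step (hh : Primrec fun x : α × ℕ => h x.1 x.2) {r : α → Rc}
    {s : α → ℕ} (hs : Primrec s) (hr : Primrec r) :
    Primrec fun a => step (h a) (s a) (r a) := by
  unfold step
  fun_prop

@[fun_prop] theorem p_stage (hh : Primrec fun x : α × ℕ => h x.1 x.2)
    {s : α → ℕ} (hs : Primrec s) : Primrec fun a => stage (h a) (s a) := by
  unfold stage
  fun_prop

end prim

section congr

variable {h h' : ℕ → Rc} {s : ℕ} (H : ∀ t < s, h t = h' t)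
include H

theorem kk_congr (ρ : Site) : kk h ρ s = kk h' ρ s :=
  cntB_congr fun t ht => by rw [H t ht]

theorem actLt_congr (γ : Node) (i : Bool) (o : ℕ) {t : ℕ} (ht : t < s) :
    actLt h γ i o t = actLt h' γ i o t := by
  unfold actLt
  rw [H t ht]

theorem beta_congr (e : ℕ) (ρ : Site) : beta h e s ρ = beta h' e s ρ := by
  unfold beta
  rw [kk_congr H]

theorem dfd_congr (e : ℕ) (ρ : Site) : dfd h e s ρ = dfd h' e s ρ := by
  unfold dfd
  rw [kk_congr H]

theorem resp_congr (e : ℕ) (ρ : Site) (d : ℕ) : resp h e s ρ d = resp h' e s ρ d := by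
  unfold resp okAt
  simp only [beta_congr H, dfd_congr H]

theorem tsw_congr (γ : Node) : tsw h γ s = tsw h' γ s :=
  lastB_congr fun t ht => by rw [actLt_congr H _ _ _ ht, actLt_congr H _ _ _ ht]

theorem isw_congr (hs : 0 < s) (γ : Node) : isw h γ s = isw h' γ s := by
  unfold isw
  rw [tsw_congr H]
  exact actLt_congr H _ _ _ (lastB_lt hs)

theorem dcs_congr (hs : 0 < s) (γ : Node) (σ : Site) : dcs h γ σ s = dcs h' γ σ s := by
  unfold dcs
  simp only [isw_congr H hs, tsw_congr H, resp_congr H, beta_congr H]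

theorem trip_congr (hs : 0 < s) (γ : Node) (σ : Site) : trip h γ σ s = trip h' γ σ s := by
  unfold trip
  rw [dcs_congr H hs, lastB_congr fun t ht => actLt_congr H _ _ _ ht]

theorem step_congr (r : Rc) : step h s r = step h' s r := by
  unfold step
  by_cases hr : r.2.length < s
  · have hs : 0 < s := by omega
    rw [trip_congr H hs, H _ (show (trip h' r.1 r.2 s).2.2 < s from lastB_lt hs)]
  · simp [hr]

theorem stage_congr : stage h s = stage h' s := by
  unfold stage
  rw [show step h s = step h' s from funext (step_congr H)]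

end congr

/-- the list of the first `s` records -/
def hist : ℕ → List Rc
  | 0 => []
  | s + 1 => hist s ++ [stage (fun t => (hist s).getD t ([], [])) s]

/-- the record of stage `s` -/
def rcd (s : ℕ) : Rc := stage (fun t => (hist s).getD t ([], [])) s

theorem hist_eq (s : ℕ) : hist s = (List.range s).map rcd := by
  induction s with
  | zero => rfl
  | succ s ih =>
    rw [List.range_succ, List.map_append, ← ih]
    rfl

theorem rcd_eq (s : ℕ) : rcd s = stage rcd s := by
  refine stage_congr fun t ht => ?_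
  rw [hist_eq]
  simp [List.getD_eq_getElem?_getD, ht]

theorem p_rcd0 : Primrec rcd := by
  have h := Primrec.nat_strong_rec (fun (_ : Unit) (s : ℕ) => rcd s)
    (g := fun _ l => some (stage (fun t => l.getD t ([], [])) l.length))
    (by unfold Primrec₂; fun_prop) (fun _ n => by
      simp only [List.length_map, List.length_range, Option.some.injEq]
      rw [← hist_eq]
      rfl)
  exact h.comp (Primrec.const ()) Primrec.id

@[fun_prop] theorem p_rcd {α : Type} [Primcodable α] {s : α → ℕ} (hs : Primrec s) :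
    Primrec fun a => rcd (s a) := p_rcd0.comp hs

end Pool.Agent.P.MP_d6faff_lc
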