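import Pool.Agent.P.MP_d6faff_lc.Graph

/-! Reading coordinates off an arbitrary computable copy. -/

namespace Pool.Agent.P.MP_d6faff_lc

variable {K : SimpleGraph ℕ} {L : Site → Bool → ℕ → Prop} {ψ : ℕ → X}

theorem exists_adjB (hK : ComputablePred fun p : ℕ × ℕ => K.Adj p.1 p.2) :
    ∃ a : ℕ × ℕ → Bool, Computable a ∧ ∀ m n, K.Adj m n ↔ a (m, n) = true := by
  obtain ⟨a, ha, e⟩ := ComputablePred.computable_iff.1 hK
  exact ⟨a, ha, fun m n => by simpa using congrFun e (m, n)⟩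

theorem sig_pat (hK : ComputablePred fun p : ℕ × ℕ => K.Adj p.1 p.2) :
    Sig fun x : (ℕ × ℕ) × ((ℕ × ℕ) × (ℕ × ℕ)) =>
      ∃ c : ℕ × ℕ, Pat K x.1.1 c.1 c.2 x.2.1.1 x.2.1.2 x.2.2.1 x.2.2.2 := by
  obtain ⟨a, ha, e⟩ := exists_adjB hK
  let n : ℕ × ℕ → Bool := fun p => !(decide (p.1 = p.2))
  have hn : Computable n := by fun_prop
  have h1 : Sig fun y : ((ℕ × ℕ) × ((ℕ × ℕ) × (ℕ × ℕ))) × (ℕ × ℕ) =>
      (a (y.1.1.1, y.2.1) && (a (y.1.1.1, y.2.2) && (a (y.2.1, y.2.2) && (a (y.2.1, y.1.2.1.1) &&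
        (a (y.2.2, y.1.2.1.2) && (a (y.1.2.1.1, y.1.2.1.2) && (a (y.2.1, y.1.2.2.1) &&
        a (y.2.2, y.1.2.2.2)))))))) = true := Sig.ofBool (by fun_prop)
  have h2 : Sig fun y : ((ℕ × ℕ) × ((ℕ × ℕ) × (ℕ × ℕ))) × (ℕ × ℕ) =>
      (n (y.1.2.1.1, y.1.1.1) && (n (y.1.2.1.1, y.2.2) && (n (y.1.2.1.2, y.1.1.1) &&
        (n (y.1.2.1.2, y.2.1) && (n (y.1.2.2.1, y.1.1.1) && (n (y.1.2.2.1, y.2.2) &&
        (n (y.1.2.2.1, y.1.2.1.1) && (n (y.1.2.2.2, y.1.1.1) && (n (y.1.2.2.2, y.2.1) &&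
        n (y.1.2.2.2, y.1.2.1.2)))))))))) = true := Sig.ofBool (by fun_prop)
  refine (Sig.ex (h1.and h2)).of_eq fun x => exists_congr fun c => ?_
  simp only [Pat, e, n, Bool.and_eq_true, Bool.not_eq_eq_eq_not, Bool.not_true,
    decide_eq_false_iff_not, ne_eq, and_assoc]

theorem Pres.pat_exists (h : Pres K (Dom L) ψ) (hL : Down L) {σ : Site} {i j : Bool} {w : ℕ}
    (hw : ψ w = T σ (xor i j) 0) : ∃ c c' l l' r r', Pat K w c c' l l' r r' ∧
      ψ l = T (false :: σ) i 0 ∧ ψ l' = T (false :: σ) (!i) 0 ∧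
      ψ r = T (true :: σ) j 0 ∧ ψ r' = T (true :: σ) (!j) 0 := by
  obtain ⟨c, hc⟩ := h.surj (C_mem_Dom (σ := σ) (i := i) (j := j))
  obtain ⟨c', hc'⟩ := h.surj (C_mem_Dom (σ := σ) (i := !i) (j := !j))
  obtain ⟨l, hl⟩ := h.surj (x := T (false :: σ) i 0) (hL.zero _ _)
  obtain ⟨l', hl'⟩ := h.surj (x := T (false :: σ) (!i) 0) (hL.zero _ _)
  obtain ⟨r, hr⟩ := h.surj (x := T (true :: σ) j 0) (hL.zero _ _)
  obtain ⟨r', hr'⟩ := h.surj (x := T (true :: σ) (!j) 0) (hL.zero _ _)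
  refine ⟨c, c', l, l', r, r', ?_, hl, hl', hr, hr'⟩
  rw [h.pat, hw, hc, hc', hl, hl', hr, hr']
  exact pat_std σ i j

/-- the bit of a twin -/
def bit (v : X) : Bool := Sum.elim (fun p => p.2.1) (fun _ => false) v

theorem p_bit : Primrec bit := by
  unfold bit
  fun_prop

theorem Pres.coords (h : Pres K (Dom L) ψ) (hL : Down L)
    (hK : ComputablePred fun p : ℕ × ℕ => K.Adj p.1 p.2) :
    ∃ (A : Site × Bool → ℕ) (z : Site → Bool), Computable A ∧ IsG z ∧ z [] = false ∧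
      ∀ σ b, ψ (A (σ, b)) = T σ (xor b (z σ)) 0 := by
  obtain ⟨w0, h0⟩ := h.surj (x := T [] false 0) (hL.zero _ _)
  obtain ⟨w1, h1⟩ := h.surj (x := T [] true 0) (hL.zero _ _)
  obtain ⟨W, hW, hW0, H⟩ := Sig.dc (R := fun (x : ℕ × ℕ) (y : (ℕ × ℕ) × (ℕ × ℕ)) =>
      ∃ c : ℕ × ℕ, Pat K x.1 c.1 c.2 y.1.1 y.1.2 y.2.1 y.2.2) (sig_pat hK)
    (fun σ x => ∃ b, ψ x.1 = T σ b 0 ∧ ψ x.2 = T σ (!b) 0) (w0, w1) ⟨false, h0, h1⟩
    (fun σ x ⟨b, hb, _⟩ => by
      obtain ⟨c, c', l, l', r, r', hp, -⟩ := h.pat_exists hL (i := false) (j := b)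
        (by simpa using hb)
      exact ⟨((l, l'), (r, r')), (c, c'), hp⟩)
    (fun σ x y ⟨b, hb, _⟩ ⟨c, hc⟩ => by
      rw [h.pat, hb] at hc
      obtain ⟨i, j, -, a1, a2, a3, a4⟩ := pat_unique hc
      exact ⟨⟨i, a1, a2⟩, ⟨j, a3, a4⟩⟩)
  refine ⟨fun p => bif p.2 then (W p.1).2 else (W p.1).1, fun σ => bit (ψ (W σ).1), by fun_prop,
    fun σ => ?_, by simp [hW0, h0, bit], fun σ b => ?_⟩
  · obtain ⟨⟨b, hb, -⟩, c, hc⟩ := H σ
    rw [h.pat, hb] at hc
    obtain ⟨i, j, e, a1, -, a3, -⟩ := pat_unique hc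
    dsimp only at a1 a3 ⊢
    rw [hb, a1, a3, ← e]
    rfl
  · obtain ⟨⟨b', hb, hb'⟩, -⟩ := H σ
    cases b <;> simp [hb, hb', bit]

/-- `n` can follow the twin `b` of `σ` on its hanging path -/
def First (K : SimpleGraph ℕ) (A : Site × Bool → ℕ) (σ : Site) (b : Bool) (n : ℕ) : Prop :=
  n ≠ A (σ, !b) ∧ ¬ K.Adj n (A (false :: σ, false)) ∧ ¬ K.Adj n (A (false :: σ, true)) ∧
    (σ = [] ∨ (¬ K.Adj n (A (σ.tail, false)) ∧ ¬ K.Adj n (A (σ.tail, true))))

/-- `n` is the `m`-th vertex of the path hanging at the twin `b` of `σ` -/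
def Pth (K : SimpleGraph ℕ) (A : Site × Bool → ℕ) (σ : Site) (b : Bool) (m n : ℕ) : Prop :=
  ∃ l : List ℕ, (l.getD 0 0 = A (σ, b) ∧ l.getD m 0 = n) ∧
    ∀ j < m, K.Adj (l.getD j 0) (l.getD (j + 1) 0) ∧
      ((j = 0 ∧ First K A σ b (l.getD 1 0)) ∨ (j ≠ 0 ∧ l.getD (j + 1) 0 ≠ l.getD (j - 1) 0))

/-- the position of `n` read off from `K` and the twins alone -/
def Gam (K : SimpleGraph ℕ) (A : Site × Bool → ℕ) (n : ℕ) (x : X) : Prop :=
  (∃ p : Site × Bool × ℕ, x = Sum.inl p ∧ Pth K A p.1 p.2.1 p.2.2 n) ∨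
  (∃ q : Site × Bool × Bool, x = Sum.inr q ∧ K.Adj n (A (q.1, xor q.2.1 q.2.2)) ∧
    K.Adj n (A (false :: q.1, q.2.1)))

section gam

variable {A : Site × Bool → ℕ} (h : Pres K (Dom L) ψ) (hA : ∀ σ b, ψ (A (σ, b)) = T σ b 0)
include h hA

theorem first_iff {σ : Site} {b : Bool} {n : ℕ} (hn : K.Adj (A (σ, b)) n) :
    First K A σ b n ↔ ψ n = T σ b 1 := by
  rw [h.adj, hA] at hn
  unfold First
  simp only [h.adj, hA, h.ne_iff]
  rcases adj_T0.1 hn with e | e | e | ⟨τ, rfl, e | e | e⟩ | ⟨τ, rfl, e | e⟩ <;> rw [e]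
  · cases σ <;> simp [adj_TS]
  all_goals cases b <;> simp [adj_C]

theorem pth_iff (hL : Down L) {σ : Site} {b : Bool} {m n : ℕ} :
    Pth K A σ b m n ↔ ψ n = T σ b m := by
  constructor
  · rintro ⟨l, ⟨h0, hm⟩, H⟩
    have key : ∀ j, j ≤ m → ψ (l.getD j 0) = T σ b j := by
      intro j
      induction j using Nat.strong_induction_on with
      | _ j ih =>
      intro hj
      rcases j with _ | _ | j
      · rw [h0, hA]
      · obtain ⟨a1, a2⟩ := H 0 (by omega)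
        rw [h0] at a1
        rcases a2 with ⟨-, a2⟩ | ⟨a2, -⟩
        · exact (first_iff h hA a1).1 a2
        · exact absurd rfl a2
      · obtain ⟨a1, a2⟩ := H (j + 1) (by omega)
        rcases a2 with ⟨a2, -⟩ | ⟨-, a2⟩
        · omega
        · rw [h.adj, ih (j + 1) (by omega) (by omega)] at a1
          rw [h.ne_iff, Nat.add_sub_cancel, ih j (by omega) (by omega)] at a2
          exact (adj_TS.1 a1).resolve_left a2
    rw [← hm]
    exact key m le_rfl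
  · intro hn
    have hm : L σ b m := by
      have := h.mem n
      rwa [hn] at this
    have hex : ∀ j, ∃ v, j ≤ m → ψ v = T σ b j := fun j => by
      by_cases hj : j ≤ m
      · obtain ⟨v, hv⟩ := h.surj (x := T σ b j) (hL.le hm hj)
        exact ⟨v, fun _ => hv⟩
      · exact ⟨0, fun h' => absurd h' hj⟩
    choose v hv using hex
    have hg : ∀ j, j ≤ m → ψ (((List.range (m + 1)).map v).getD j 0) = T σ b j := fun j hj => by
      rw [List.getD_eq_getElem _ _ (by simp; omega)]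
      simp [hv j hj]
    refine ⟨(List.range (m + 1)).map v, ⟨h.inj (by rw [hg 0 (by omega), hA]),
      h.inj (by rw [hg m le_rfl, hn])⟩, fun j hj => ⟨?_, ?_⟩⟩
    · rw [h.adj, hg j (by omega), hg (j + 1) (by omega)]
      exact (adj_TS.2 (Or.inl rfl)).symm
    · rcases j with _ | j
      · refine Or.inl ⟨rfl, (first_iff h hA ?_).2 (hg 1 (by omega))⟩
        rw [h.adj, hA, hg 1 (by omega)]
        exact (adj_TS.2 (Or.inl rfl)).symm
      · refine Or.inr ⟨by omega, ?_⟩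
        rw [h.ne_iff, hg _ (by omega), hg _ (by omega)]
        simp only [ne_eq, Sum.inl.injEq, Prod.mk.injEq, true_and]
        omega

theorem gam_iff (hL : Down L) {n : ℕ} {x : X} : Gam K A n x ↔ ψ n = x := by
  unfold Gam
  rcases x with ⟨σ, b, m⟩ | ⟨σ, i, j⟩
  · simp only [Sum.inl.injEq, exists_eq_left', reduceCtorEq, false_and, exists_false, or_false]
    exact pth_iff h hA hL
  · simp only [Sum.inr.injEq, exists_eq_left', reduceCtorEq, false_and, exists_false, false_or,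
      h.adj, hA]
    constructor
    · rintro ⟨a1, a2⟩
      have b2 := adj_T0.1 a2.symm
      generalize ψ n = y at a1 b2
      have n1 : ∀ (c : Bool) (τ : Site), τ ≠ c :: τ := fun c τ => (List.cons_ne_self c τ).symm
      have n2 : ∀ (c d : Bool) (τ : Site), τ ≠ c :: d :: τ := fun c d τ e => by
        have := congrArg List.length e
        simp only [List.length_cons] at this
        omega
      rcases b2 with rfl | rfl | rfl | ⟨τ, e, rfl | rfl | rfl⟩ | ⟨τ, e, rfl | rfl⟩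
      · simp [adj_TS] at a1
      · simp [adj_C, n1, n2] at a1
      · simp [adj_C, n1, n2] at a1
      · obtain rfl : σ = τ := (List.cons.inj e).2
        cases i <;> cases j <;> simp [adj_C, n1] at a1 ⊢
      · obtain rfl : σ = τ := (List.cons.inj e).2
        cases i <;> cases j <;> simp [adj_C, n1] at a1 ⊢
      · simp [adj_T0, n1] at a1
      · simp at e
      · simp at e
    · intro e
      rw [e]
      exact ⟨adj_C.2 (by simp), adj_C.2 (by simp)⟩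

end gam

theorem sig_gam {A : Site × Bool → ℕ} (hK : ComputablePred fun p : ℕ × ℕ => K.Adj p.1 p.2)
    (hA : Computable A) : Sig fun y : ℕ × X => Gam K A y.1 y.2 := by
  obtain ⟨a, ha, e⟩ := exists_adjB hK
  let fb : Site × Bool × ℕ → Bool := fun p => !(decide (p.2.2 = A (p.1, !p.2.1))) &&
    (!(a (p.2.2, A (false :: p.1, false))) && (!(a (p.2.2, A (false :: p.1, true))) &&
    (decide (p.1 = []) || (!(a (p.2.2, A (p.1.tail, false))) && !(a (p.2.2, A (p.1.tail, true)))))))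
  have hfb : Computable fb := by fun_prop
  have efb : ∀ σ b n, fb (σ, b, n) = true ↔ First K A σ b n := fun σ b n => by
    simp [fb, First, e]
  have h1 : Sig fun y : ((Site × Bool × ℕ) × List ℕ) × ℕ =>
      (a (y.1.2.getD y.2 0, y.1.2.getD (y.2 + 1) 0) &&
        ((decide (y.2 = 0) && fb (y.1.1.1, y.1.1.2.1, y.1.2.getD 1 0)) ||
          (!(decide (y.2 = 0)) && !(decide (y.1.2.getD (y.2 + 1) 0 = y.1.2.getD (y.2 - 1) 0))))) =
        true := Sig.ofBool (by fun_prop)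
  have h2 := h1.ball (f := fun y : (Site × Bool × ℕ) × List ℕ => y.1.2.2) (by fun_prop)
  have h3 : Sig fun y : ((Site × Bool × ℕ) × ℕ) × List ℕ =>
      (decide (y.2.getD 0 0 = A (y.1.1.1, y.1.1.2.1)) && decide (y.2.getD y.1.1.2.2 0 = y.1.2)) =
        true := Sig.ofBool (by fun_prop)
  have h4 := Sig.ex (h3.and (h2.comp (f := fun y : ((Site × Bool × ℕ) × ℕ) × List ℕ =>
    (y.1.1, y.2)) (by fun_prop)))
  have h5 : Sig fun y : (Site × Bool × ℕ) × ℕ => Pth K A y.1.1 y.1.2.1 y.1.2.2 y.2 :=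
    h4.of_eq fun y => exists_congr fun l => by
      simp only [Bool.and_eq_true, decide_eq_true_eq, Bool.or_eq_true, efb, e,
        Bool.not_eq_eq_eq_not, Bool.not_true, decide_eq_false_iff_not, ne_eq]
  have h6 : Sig fun y : (ℕ × X) × (Site × Bool × ℕ) => y.1.2 = Sum.inl y.2 :=
    Sig.ofDec (by fun_prop)
  have h7 : Sig fun y : (ℕ × X) × (Site × Bool × Bool) =>
      (decide (y.1.2 = Sum.inr y.2) && (a (y.1.1, A (y.2.1, xor y.2.2.1 y.2.2.2)) &&
        a (y.1.1, A (false :: y.2.1, y.2.2.1)))) = true := Sig.ofBool (by fun_prop)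
  refine ((Sig.ex (h6.and (h5.comp (f := fun y : (ℕ × X) × (Site × Bool × ℕ) => (y.2, y.1.1))
    (by fun_prop)))).or (Sig.ex h7)).of_eq fun y => ?_
  simp only [Gam, e, Bool.and_eq_true, decide_eq_true_eq]

theorem Pres.computable {A : Site × Bool → ℕ} (h : Pres K (Dom L) ψ) (hL : Down L)
    (hK : ComputablePred fun p : ℕ × ℕ => K.Adj p.1 p.2) (hc : Computable A)
    (hA : ∀ σ b, ψ (A (σ, b)) = T σ b 0) : Computable ψ :=
  computable_of_graph ((sig_gam hK hc).of_eq fun _ => gam_iff h hA hL)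

theorem Pres.unique {A : Site × Bool → ℕ} {L' : Site → Bool → ℕ → Prop} {ψ' : ℕ → X}
    (h : Pres K (Dom L) ψ) (hL : Down L) (h' : Pres K (Dom L') ψ') (hL' : Down L')
    (hA : ∀ σ b, ψ (A (σ, b)) = T σ b 0) (hA' : ∀ σ b, ψ' (A (σ, b)) = T σ b 0)
    (σ : Site) (b : Bool) (m : ℕ) : L σ b m ↔ L' σ b m := by
  have e : ψ = ψ' := funext fun n => ((gam_iff h' hA' hL').1 ((gam_iff h hA hL).2 rfl)).symm
  have : Dom L = Dom L' := by rw [← h.rng, ← h'.rng, e]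
  rw [← T_mem_Dom (L := L), this, T_mem_Dom]

theorem Pres.iso {K' : SimpleGraph ℕ} {D : Set X} {ψ' : ℕ → X} (h : Pres K D ψ)
    (h' : Pres K' D ψ') : ∃ f : K ≃g K', ∀ n, ψ' (f n) = ψ n := by
  choose f hf using fun n => h'.surj (h.mem n)
  choose g hg using fun n => h.surj (h'.mem n)
  refine ⟨⟨⟨f, g, fun n => h.inj (by rw [hg, hf]), fun n => h'.inj (by rw [hf, hg])⟩, ?_⟩, hf⟩
  intro a b
  simp only [Equiv.coe_fn_mk]
  rw [h'.adj, hf, hf, h.adj]

theorem Pres.iso_computable {K' : SimpleGraph ℕ} {D : Set X} {ψ' : ℕ → X} (h : Pres K D ψ)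
    (h' : Pres K' D ψ') (hc : Computable ψ) (hc' : Computable ψ') :
    ∃ f : K ≃g K', Computable (⇑f : ℕ → ℕ) := by
  obtain ⟨f, hf⟩ := h.iso h'
  have : Sig fun y : ℕ × ℕ => ψ' y.2 = ψ y.1 := Sig.ofDec (by fun_prop)
  refine ⟨f, computable_of_graph (this.of_eq fun y => ?_)⟩
  rw [← hf, h'.inj.eq_iff, eq_comm]

theorem Pres.comp_iso {K' : SimpleGraph ℕ} {D : Set X} (h : Pres K D ψ) (f : K' ≃g K) :
    Pres K' D (fun n => ψ (f n)) := by
  refine ⟨h.inj.comp f.injective, ?_, fun m n => by rw [← h.adj, f.map_adj_iff]⟩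
  rw [← h.rng]
  exact f.surjective.range_comp ψ

end Pool.Agent.P.MP_d6faff_lc
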