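import Pool.Agent.P.MP_d6faff_lc.Abstract

/-! The universal graph: twins `T σ b 0`, paths `T σ b m` hanging at them, and parity gadgets
`C σ i j`. -/

namespace Pool.Agent.P.MP_d6faff_lc

abbrev X := (Site × Bool × ℕ) ⊕ (Site × Bool × Bool)

@[match_pattern] abbrev T (σ : Site) (b : Bool) (m : ℕ) : X := Sum.inl (σ, b, m)
@[match_pattern] abbrev C (σ : Site) (i j : Bool) : X := Sum.inr (σ, i, j)

/-- out-neighbours -/
def outN (x : X) : List X :=
  Sum.elim
    (fun p => T p.1 p.2.1 (p.2.2 + 1) ::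
      bif decide (p.2.2 = 0) && decide (p.1 = false :: p.1.tail) then [T p.1 (!p.2.1) 0] else [])
    (fun q => [T q.1 (xor q.2.1 q.2.2) 0, T (false :: q.1) q.2.1 0, T (true :: q.1) q.2.2 0,
      C q.1 (!q.2.1) (!q.2.2)]) x

theorem p_outN : Primrec outN := by
  unfold outN
  fun_prop

theorem not_mem_outN (x : X) : x ∉ outN x := by
  rcases x with ⟨σ, b, m⟩ | ⟨σ, i, j⟩
  · simp only [outN, Sum.elim_inl, List.mem_cons, Sum.inl.injEq, Prod.mk.injEq, true_and,
      Nat.left_eq_add, one_ne_zero, false_or]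
    cases (decide (m = 0) && decide (σ = false :: σ.tail)) <;> simp
  · simp [outN]

/-- the universal graph -/
def U : SimpleGraph X where
  Adj x y := y ∈ outN x ∨ x ∈ outN y
  symm := ⟨fun _ _ h => h.symm⟩
  loopless := ⟨fun x h => not_mem_outN x (h.elim id id)⟩

def memB {β : Type} [DecidableEq β] (a : β) (l : List β) : Bool := decide (a ∈ l)

@[fun_prop] theorem p_memB {α β : Type} [Primcodable α] [Primcodable β] [DecidableEq β]
    {f : α → β} {g : α → List β} (hf : Primrec f) (hg : Primrec g) :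
    Primrec fun a => memB (f a) (g a) := p_decmem hf hg

def adjB (x y : X) : Bool := memB y (outN x) || memB x (outN y)

theorem adjB_iff {x y : X} : adjB x y = true ↔ U.Adj x y := by simp [adjB, memB, U]

@[fun_prop] theorem p_adjB {α : Type} [Primcodable α] {f g : α → X} (hf : Primrec f)
    (hg : Primrec g) : Primrec fun a => adjB (f a) (g a) := by
  have := p_outN
  unfold adjB
  fun_prop

theorem adj_C {σ : Site} {i j : Bool} {y : X} : U.Adj (C σ i j) y ↔
    y = T σ (xor i j) 0 ∨ y = T (false :: σ) i 0 ∨ y = T (true :: σ) j 0 ∨ y = C σ (!i) (!j) := by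
  rcases y with ⟨τ, b, m⟩ | ⟨τ, i', j'⟩
  · simp only [U, outN, Sum.elim_inl, Sum.elim_inr]
    cases (decide (m = 0) && decide (τ = false :: τ.tail)) <;> simp
  · simp only [U, outN, Sum.elim_inr]
    cases i <;> cases j <;> cases i' <;> cases j' <;> simp [eq_comm]

theorem adj_TS {σ : Site} {b : Bool} {m : ℕ} {y : X} : U.Adj (T σ b (m + 1)) y ↔
    y = T σ b m ∨ y = T σ b (m + 2) := by
  rcases y with ⟨τ, b', m'⟩ | ⟨τ, i', j'⟩
  · simp only [U, outN, Sum.elim_inl]
    cases (decide (m' = 0) && decide (τ = false :: τ.tail)) <;> simp <;> grind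
  · simp [U, outN]

theorem adj_T0 {σ : Site} {b : Bool} {y : X} : U.Adj (T σ b 0) y ↔
    y = T σ b 1 ∨ y = C σ false b ∨ y = C σ true (!b) ∨
    (∃ τ, σ = false :: τ ∧ (y = C τ b false ∨ y = C τ b true ∨ y = T σ (!b) 0)) ∨
    (∃ τ, σ = true :: τ ∧ (y = C τ false b ∨ y = C τ true b)) := by
  rcases y with ⟨τ, b', m'⟩ | ⟨τ, i', j'⟩
  · simp only [U, outN, Sum.elim_inl]
    rcases σ with _ | ⟨_ | _, σ⟩ <;> rcases τ with _ | ⟨_ | _, τ⟩ <;> rcases m' with _ | m' <;>
      cases b <;> cases b' <;> simp <;> grind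
  · simp only [U, outN, Sum.elim_inl, Sum.elim_inr]
    rcases σ with _ | ⟨_ | _, σ⟩ <;> cases b <;> cases i' <;> cases j' <;> simp <;> grind

/-- vertices present when the path at the twin `b` of `σ` has the lengths allowed by `L` -/
def Dom (L : Site → Bool → ℕ → Prop) : Set X :=
  {x | Sum.elim (fun p => L p.1 p.2.1 p.2.2) (fun _ => True) x}

@[simp] theorem T_mem_Dom {L : Site → Bool → ℕ → Prop} {σ : Site} {b : Bool} {m : ℕ} :
    T σ b m ∈ Dom L ↔ L σ b m := Iff.rfl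

@[simp] theorem C_mem_Dom {L : Site → Bool → ℕ → Prop} {σ : Site} {i j : Bool} :
    C σ i j ∈ Dom L := trivial

structure Down (L : Site → Bool → ℕ → Prop) : Prop where
  zero : ∀ σ b, L σ b 0
  pred : ∀ σ b m, L σ b (m + 1) → L σ b m

theorem Down.le {L : Site → Bool → ℕ → Prop} (h : Down L) {σ : Site} {b : Bool} {m n : ℕ}
    (hn : L σ b n) (hmn : m ≤ n) : L σ b m := by
  induction n, hmn using Nat.le_induction with
  | base => exact hn
  | succ n _ ih => exact ih (h.pred _ _ _ hn)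

/-- `ψ` identifies the graph `K` on the naturals with the part of `U` spanned by `D` -/
structure Pres (K : SimpleGraph ℕ) (D : Set X) (ψ : ℕ → X) : Prop where
  inj : Function.Injective ψ
  rng : Set.range ψ = D
  adj : ∀ m n, K.Adj m n ↔ U.Adj (ψ m) (ψ n)

theorem Pres.surj {K : SimpleGraph ℕ} {D : Set X} {ψ : ℕ → X} (h : Pres K D ψ) {x : X}
    (hx : x ∈ D) : ∃ n, ψ n = x := by
  rw [← h.rng] at hx
  exact hx

theorem Pres.mem {K : SimpleGraph ℕ} {D : Set X} {ψ : ℕ → X} (h : Pres K D ψ) (n : ℕ) :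
    ψ n ∈ D := h.rng ▸ Set.mem_range_self n

theorem Pres.ne_iff {K : SimpleGraph ℕ} {D : Set X} {ψ : ℕ → X} (h : Pres K D ψ) {m n : ℕ} :
    m ≠ n ↔ ψ m ≠ ψ n := h.inj.ne_iff.symm

theorem U_locFin (x : X) : (U.neighborSet x).Finite := by
  rcases x with ⟨σ, b, _ | m⟩ | ⟨σ, i, j⟩
  · refine (List.finite_toSet [T σ b 1, C σ false b, C σ true (!b), C σ.tail b false,
      C σ.tail b true, T σ (!b) 0, C σ.tail false b, C σ.tail true b]).subset fun y hy => ?_
    rcases adj_T0.1 hy with h | h | h | ⟨τ, rfl, h | h | h⟩ | ⟨τ, rfl, h | h⟩ <;> simp [h]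
  · refine (List.finite_toSet [T σ b m, T σ b (m + 2)]).subset fun y hy => ?_
    rcases adj_TS.1 hy with h | h <;> simp [h]
  · refine (List.finite_toSet [T σ (xor i j) 0, T (false :: σ) i 0, T (true :: σ) j 0,
      C σ (!i) (!j)]).subset fun y hy => ?_
    rcases adj_C.1 hy with h | h | h | h <;> simp [h]

theorem Pres.locFin {K : SimpleGraph ℕ} {D : Set X} {ψ : ℕ → X} (h : Pres K D ψ) (v : ℕ) :
    (K.neighborSet v).Finite :=
  ((U_locFin (ψ v)).preimage h.inj.injOn).subset fun _ hw => (h.adj _ _).1 hw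

theorem Pres.connected {K : SimpleGraph ℕ} {L : Site → Bool → ℕ → Prop} {ψ : ℕ → X}
    (h : Pres K (Dom L) ψ) (hL : Down L) : K.Connected := by
  obtain ⟨r, hr⟩ := h.surj (x := T [] false 0) (hL.zero _ _)
  let R : X → Prop := fun x => ∀ n, ψ n = x → K.Reachable r n
  have step : ∀ x y, x ∈ Dom L → R x → U.Adj x y → R y := fun x y hx hR ha n hn => by
    obtain ⟨m, hm⟩ := h.surj hx
    exact (hR m hm).trans ((h.adj m n).2 (by rw [hm, hn]; exact ha)).reachable
  have hC : ∀ σ i j, R (T σ (xor i j) 0) → R (C σ i j) := fun σ i j hR =>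
    step _ _ (hL.zero _ _) hR (adj_C.2 (Or.inl rfl)).symm
  have hl : ∀ σ i j, R (C σ i j) → R (T (false :: σ) i 0) := fun σ i j hR =>
    step _ _ C_mem_Dom hR (adj_C.2 (Or.inr (Or.inl rfl)))
  have hrr : ∀ σ i j, R (C σ i j) → R (T (true :: σ) j 0) := fun σ i j hR =>
    step _ _ C_mem_Dom hR (adj_C.2 (Or.inr (Or.inr (Or.inl rfl))))
  have h0 : R (T [] false 0) := fun n hn => by
    rw [h.inj (hn.trans hr.symm)]
  have h1 : R (T [] true 0) := by
    have a : R (T [false] false 0) := hl [] false false (hC [] false false h0)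
    have b : R (C [] false true) :=
      step _ _ (hL.zero _ _) a (adj_C.2 (Or.inr (Or.inl rfl))).symm
    exact step _ _ C_mem_Dom b (adj_C.2 (Or.inl rfl))
  have hT0 : ∀ σ b, R (T σ b 0) := by
    intro σ
    induction σ with
    | nil => intro b; cases b; exact h0; exact h1
    | cons d σ ih =>
      intro b
      cases d
      · exact hl σ b b (hC σ b b (ih _))
      · exact hrr σ b b (hC σ b b (ih _))
  have hT : ∀ σ b m, L σ b m → R (T σ b m) := by
    intro σ b m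
    induction m with
    | zero => exact fun _ => hT0 σ b
    | succ m ih =>
      intro hm
      have hm' := hL.pred _ _ _ hm
      exact step _ _ hm' (ih hm') (adj_TS.2 (Or.inl rfl)).symm
  have hall : ∀ n, K.Reachable r n := fun n => by
    have hm := h.mem n
    rcases hn : ψ n with ⟨σ, b, m⟩ | ⟨σ, i, j⟩
    · rw [hn] at hm
      exact hT σ b m hm n hn
    · exact hC σ i j (hT0 _ _) n hn
  exact ⟨fun a b => (hall a).symm.trans (hall b)⟩

/-! ### twisting -/

/-- the automorphism of `U` given by a parity-respecting assignment -/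
def tw (x : Site → Bool) (v : X) : X :=
  Sum.elim (fun p => T p.1 (xor p.2.1 (x p.1)) p.2.2)
    (fun q => C q.1 (xor q.2.1 (x (false :: q.1))) (xor q.2.2 (x (true :: q.1)))) v

@[simp] theorem tw_T (x : Site → Bool) (σ : Site) (b : Bool) (m : ℕ) :
    tw x (T σ b m) = T σ (xor b (x σ)) m := rfl

@[simp] theorem tw_C (x : Site → Bool) (σ : Site) (i j : Bool) :
    tw x (C σ i j) = C σ (xor i (x (false :: σ))) (xor j (x (true :: σ))) := rfl

theorem tw_tw (x : Site → Bool) (v : X) : tw x (tw x v) = v := by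
  rcases v with ⟨σ, b, m⟩ | ⟨σ, i, j⟩ <;> simp

theorem c_tw {x : Site → Bool} (hx : Computable x) : Computable (tw x) := by
  unfold tw
  fun_prop

theorem tw_out {x : Site → Bool} (hx : IsG x) {v w : X} (h : w ∈ outN v) :
    tw x w ∈ outN (tw x v) := by
  rcases v with ⟨σ, b, m⟩ | ⟨σ, i, j⟩
  · simp only [outN, Sum.elim_inl, tw_T, List.mem_cons] at h ⊢
    rcases h with rfl | h
    · simp
    · right
      cases hc : (decide (m = 0) && decide (σ = false :: σ.tail)) <;>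
        simp only [hc, cond_true, cond_false, List.not_mem_nil, List.mem_singleton] at h ⊢
      subst h
      cases b <;> simp
  · have := hx σ
    simp only [outN, Sum.elim_inr, tw_C, List.mem_cons, List.not_mem_nil, or_false] at h ⊢
    rcases h with rfl | rfl | rfl | rfl
    · left
      rw [tw_T, this]
      cases i <;> cases j <;> cases x (false :: σ) <;> cases x (true :: σ) <;> rfl
    · simp
    · simp
    · cases i <;> cases j <;> simp

theorem tw_adj {x : Site → Bool} (hx : IsG x) {v w : X} :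
    U.Adj (tw x v) (tw x w) ↔ U.Adj v w := by
  have key : ∀ v w, U.Adj v w → U.Adj (tw x v) (tw x w) := fun v w h =>
    h.elim (fun h => Or.inl (tw_out hx h)) (fun h => Or.inr (tw_out hx h))
  refine ⟨fun h => ?_, key v w⟩
  simpa only [tw_tw] using key _ _ h

theorem Pres.twist {K : SimpleGraph ℕ} {L L' : Site → Bool → ℕ → Prop} {ψ : ℕ → X}
    (h : Pres K (Dom L) ψ) {x : Site → Bool} (hx : IsG x)
    (hL : ∀ σ b m, L' σ b m ↔ L σ (xor b (x σ)) m) : Pres K (Dom L') (fun n => tw x (ψ n)) := by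
  have hm : ∀ v, v ∈ Dom L' ↔ tw x v ∈ Dom L := by
    rintro (⟨σ, b, m⟩ | ⟨σ, i, j⟩) <;> simp [hL]
  refine ⟨fun m n hmn => h.inj ?_, ?_, fun m n => by rw [tw_adj hx, h.adj]⟩
  · rw [← tw_tw x (ψ m), ← tw_tw x (ψ n)]
    exact congrArg _ hmn
  · ext v
    rw [hm]
    constructor
    · rintro ⟨n, rfl⟩
      rw [tw_tw]
      exact h.mem n
    · intro hv
      obtain ⟨n, hn⟩ := h.surj hv
      exact ⟨n, by dsimp only; rw [hn, tw_tw]⟩

/-! ### recognising the gadget below a twin -/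

def Pat {V : Type} (G : SimpleGraph V) (w c c' l l' r r' : V) : Prop :=
  G.Adj w c ∧ G.Adj w c' ∧ G.Adj c c' ∧ G.Adj c l ∧ G.Adj c' l' ∧ G.Adj l l' ∧
  G.Adj c r ∧ G.Adj c' r' ∧
  l ≠ w ∧ l ≠ c' ∧ l' ≠ w ∧ l' ≠ c ∧ r ≠ w ∧ r ≠ c' ∧ r ≠ l ∧ r' ≠ w ∧ r' ≠ c ∧ r' ≠ l'

theorem Pres.pat {K : SimpleGraph ℕ} {D : Set X} {ψ : ℕ → X} (h : Pres K D ψ)
    {w c c' l l' r r' : ℕ} :
    Pat K w c c' l l' r r' ↔ Pat U (ψ w) (ψ c) (ψ c') (ψ l) (ψ l') (ψ r) (ψ r') := by
  simp only [Pat, h.adj, ← h.ne_iff]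

theorem pat_std (σ : Site) (i j : Bool) :
    Pat U (T σ (xor i j) 0) (C σ i j) (C σ (!i) (!j)) (T (false :: σ) i 0) (T (false :: σ) (!i) 0)
      (T (true :: σ) j 0) (T (true :: σ) (!j) 0) := by
  refine ⟨(adj_C.2 (by simp)).symm, (adj_C.2 (by simp)).symm, adj_C.2 (by simp), adj_C.2 (by simp),
    adj_C.2 (by simp), adj_T0.2 (by simp), adj_C.2 (by simp), adj_C.2 (by simp), ?_⟩
  simp

theorem tri_T0 {σ : Site} {b : Bool} {c c' : X} (h1 : U.Adj (T σ b 0) c) (h2 : U.Adj (T σ b 0) c')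
    (h3 : U.Adj c c') : ∃ i j, xor i j = b ∧ c = C σ i j ∧ c' = C σ (!i) (!j) := by
  rcases adj_T0.1 h1 with rfl | rfl | rfl | ⟨τ, rfl, rfl | rfl | rfl⟩ | ⟨τ, rfl, rfl | rfl⟩ <;>
  rcases adj_T0.1 h2 with rfl | rfl | rfl | ⟨τ', h, rfl | rfl | rfl⟩ | ⟨τ', h, rfl | rfl⟩ <;>
  simp only [adj_C, adj_TS, adj_T0] at h3 <;> cases b <;> simp_all

theorem pat_unique {σ : Site} {b : Bool} {c c' l l' r r' : X} (h : Pat U (T σ b 0) c c' l l' r r') :
    ∃ i j, xor i j = b ∧ l = T (false :: σ) i 0 ∧ l' = T (false :: σ) (!i) 0 ∧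
      r = T (true :: σ) j 0 ∧ r' = T (true :: σ) (!j) 0 := by
  obtain ⟨a1, a2, a3, a4, a5, a6, a7, a8, n1, n2, n3, n4, n5, n6, n7, n8, n9, n10⟩ := h
  obtain ⟨i, j, rfl, rfl, rfl⟩ := tri_T0 a1 a2 a3
  refine ⟨i, j, rfl, ?_⟩
  have hl : l = T (false :: σ) i 0 ∨ l = T (true :: σ) j 0 := by
    rcases adj_C.1 a4 with h | h | h | h <;> simp_all
  have hl' : l' = T (false :: σ) (!i) 0 ∨ l' = T (true :: σ) (!j) 0 := by
    rcases adj_C.1 a5 with h | h | h | h <;> simp_all
  have hr : r = T (false :: σ) i 0 ∨ r = T (true :: σ) j 0 := by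
    rcases adj_C.1 a7 with h | h | h | h <;> simp_all
  have hr' : r' = T (false :: σ) (!i) 0 ∨ r' = T (true :: σ) (!j) 0 := by
    rcases adj_C.1 a8 with h | h | h | h <;> simp_all
  rcases hl with rfl | rfl <;> rcases hl' with rfl | rfl <;> simp [adj_T0] at a6
  exact ⟨rfl, rfl, hr.resolve_left n7, hr'.resolve_left n10⟩

end Pool.Agent.P.MP_d6faff_lc
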