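import Pool.Agent.P.MP_d6faff_lc.Copies

/-! The two copies and the proof that they are the only ones. -/

namespace Pool.Agent.P.MP_d6faff_lc

/-- path lengths of the `i`-th copy: a pendant vertex marks one of the two root twins -/
def LL (i : Bool) (σ : Site) (b : Bool) (m : ℕ) : Prop :=
  (σ = [] ∧ m ≤ bif xor b i then 1 else 0) ∨ (σ ≠ [] ∧ Lab σ b m)

theorem down_LL (i : Bool) : Down (LL i) := by
  refine ⟨fun σ b => ?_, fun σ b m h => ?_⟩
  · by_cases h : σ = []
    · exact Or.inl ⟨h, Nat.zero_le _⟩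
    · exact Or.inr ⟨h, 0, Nat.zero_le _⟩
  · rcases h with ⟨h1, h2⟩ | ⟨h1, s, h2⟩
    · exact Or.inl ⟨h1, by omega⟩
    · exact Or.inr ⟨h1, s, by omega⟩

theorem Down.twist {L : Site → Bool → ℕ → Prop} (h : Down L) (x : Site → Bool) :
    Down fun σ b m => L σ (xor b (x σ)) m :=
  ⟨fun _ _ => h.zero _ _, fun _ _ _ hm => h.pred _ _ _ hm⟩

theorem LL_twist {y : Site → Bool} (hy : ∀ σ, y σ = true → Alive σ) (i : Bool) (σ : Site)
    (b : Bool) (m : ℕ) : LL (xor i (y [])) σ b m ↔ LL i σ (xor b (y σ)) m := by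
  unfold LL
  by_cases h : σ = []
  · subst h
    cases b <;> cases i <;> cases y [] <;> simp
  · cases hx : y σ
    · simp [h]
    · simp [h, (hy σ hx).lab]

theorem sig_dom (i : Bool) : Sig fun x : X => x ∈ Dom (LL i) := by
  let f : X × ℕ → Bool := fun y => Sum.elim
    (fun p : Site × Bool × ℕ =>
      (decide (p.1 = []) && decide (p.2.2 ≤ bif xor p.2.1 i then 1 else 0)) ||
      (!(decide (p.1 = [])) && decide (p.2.2 ≤ kv p.1 y.2 + bif p.2.1 then 1 else 0)))
    (fun _ => true) y.1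
  have hf : Primrec f := by fun_prop
  refine ⟨f, hf.to_comp, ?_⟩
  rintro (⟨σ, b, m⟩ | ⟨σ, i', j⟩)
  · by_cases h : σ = [] <;> simp [f, LL, Lab, h]
  · simp [f]

theorem infinite_dom (L : Site → Bool → ℕ → Prop) : (Dom L).Infinite :=
  Set.infinite_of_injective_forall_mem (f := fun σ : Site => C σ false false)
    (fun σ τ h => by simpa using h) (fun _ => C_mem_Dom)

theorem exists_pres (i : Bool) : ∃ (K : SimpleGraph ℕ) (ψ : ℕ → X),
    ComputablePred (fun p : ℕ × ℕ => K.Adj p.1 p.2) ∧ Computable ψ ∧ Pres K (Dom (LL i)) ψ := by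
  have : Inhabited X := ⟨C [] false false⟩
  obtain ⟨f, h1, h2, h3⟩ := (sig_dom i).enum (infinite_dom _)
  refine ⟨U.comap f, f, ?_, h1, h2, h3, fun _ _ => Iff.rfl⟩
  refine ComputablePred.computable_iff.2 ⟨fun p => adjB (f p.1) (f p.2), by fun_prop, ?_⟩
  funext p
  simp [adjB_iff]

variable {K : SimpleGraph ℕ}

theorem pres_switch {ψ : ℕ → X} (h : Pres K (Dom (LL false)) ψ) :
    ∃ ψ', Pres K (Dom (LL true)) ψ' := by
  obtain ⟨x, h1, h2, h3⟩ := exists_odd
  refine ⟨_, h.twist h1 fun σ b m => ?_⟩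
  have := LL_twist h3 false σ b m
  rwa [h2] at this

theorem pres_computable {ψ : ℕ → X} (h : Pres K (Dom (LL false)) ψ)
    (hK : ComputablePred fun p : ℕ × ℕ => K.Adj p.1 p.2) :
    ∃ i ψ', Computable ψ' ∧ Pres K (Dom (LL i)) ψ' := by
  obtain ⟨A, z, hA, hz, hz0, H⟩ := h.coords (down_LL _) hK
  have h1 := h.twist hz (L' := fun σ b m => LL false σ (xor b (z σ)) m) fun _ _ _ => Iff.rfl
  have hc : Computable fun n => tw z (ψ n) :=
    h1.computable ((down_LL _).twist z) hK hA fun σ b => by simp [H]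
  have hS : Sig fun y : Site × ℕ × Bool => ∃ n, tw z (ψ n) = T y.1 y.2.2 (y.2.1 + 1) :=
    Sig.ex (p := fun w : (Site × ℕ × Bool) × ℕ => tw z (ψ w.2) = T w.1.1 w.1.2.2 (w.1.2.1 + 1))
      (Sig.ofDec (c_deceq (hc.comp Computable.snd) (by fun_prop)))
  obtain ⟨z', c1, c2, c3⟩ := exists_computable_twist hz hS fun d σ k b => by
    have : (∃ n, tw z (ψ n) = T (d :: σ) b (k + 1)) ↔ T (d :: σ) b (k + 1) ∈
        Dom fun σ b m => LL false σ (xor b (z σ)) m := by
      rw [← h1.rng]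
      rfl
    rw [this, T_mem_Dom]
    simp [LL]
  refine ⟨z' [], _, (c_tw c1).comp hc, h1.twist c2 fun σ b m => ?_⟩
  have := LL_twist (y := fun σ => xor (z' σ) (z σ)) (fun σ hσ => by
    by_contra hn
    rw [c3 σ hn] at hσ
    simp at hσ) false σ b m
  simpa [hz0, Bool.xor_assoc] using this

/-- lies on a triangle and has at most three neighbours -/
def Root {V : Type} (G : SimpleGraph V) (S : Set V) (v : V) : Prop :=
  (∃ a ∈ S, ∃ b ∈ S, G.Adj v a ∧ G.Adj v b ∧ G.Adj a b) ∧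
    ¬ ∃ a ∈ S, ∃ b ∈ S, ∃ c ∈ S, ∃ d ∈ S, G.Adj v a ∧ G.Adj v b ∧ G.Adj v c ∧ G.Adj v d ∧
      a ≠ b ∧ a ≠ c ∧ a ≠ d ∧ b ≠ c ∧ b ≠ d ∧ c ≠ d

theorem Pres.root {D : Set X} {ψ : ℕ → X} (h : Pres K D ψ) {n : ℕ} :
    Root K Set.univ n ↔ Root U D (ψ n) := by
  rw [← h.rng]
  simp only [Root, Set.mem_univ, true_and, Set.mem_range, exists_exists_eq_and, h.adj, h.ne_iff]

theorem root_iff {L : Site → Bool → ℕ → Prop} (hL : Down L) {v : X} :
    Root U (Dom L) v ↔ ∃ b, v = T [] b 0 := by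
  constructor
  · rintro ⟨⟨a, -, b, -, h1, h2, h3⟩, hn⟩
    rcases v with ⟨_ | ⟨d, σ⟩, c, _ | m⟩ | ⟨σ, i, j⟩
    · exact ⟨c, rfl⟩
    · rcases adj_TS.1 h1 with rfl | rfl <;> rcases adj_TS.1 h2 with rfl | rfl
      · simp at h3
      · exact absurd h3.symm (by simp [adj_TS]; omega)
      · exact absurd h3 (by simp [adj_TS]; omega)
      · simp at h3
    · exfalso
      cases d
      · exact hn ⟨C (false :: σ) false c, trivial, C (false :: σ) true (!c), trivial,
          C σ c false, trivial, C σ c true, trivial, by simp [adj_T0]⟩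
      · exact hn ⟨C (true :: σ) false c, trivial, C (true :: σ) true (!c), trivial,
          C σ false c, trivial, C σ true c, trivial, by simp [adj_T0]⟩
    · rcases adj_TS.1 h1 with rfl | rfl <;> rcases adj_TS.1 h2 with rfl | rfl
      · simp at h3
      · exact absurd h3.symm (by simp [adj_TS]; omega)
      · exact absurd h3 (by simp [adj_TS]; omega)
      · simp at h3
    · exact absurd ⟨T σ (xor i j) 0, hL.zero _ _, T (false :: σ) i 0, hL.zero _ _,
        T (true :: σ) j 0, hL.zero _ _, C σ (!i) (!j), trivial, by simp [adj_C]⟩ hn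
  · rintro ⟨b, rfl⟩
    refine ⟨⟨C [] false b, trivial, C [] true (!b), trivial, by simp [adj_T0, adj_C]⟩, ?_⟩
    rintro ⟨a, -, b, -, c, -, d, -, h1, h2, h3, h4, hne⟩
    simp only [adj_T0, reduceCtorEq, false_and, exists_false, or_false] at h1 h2 h3 h4
    rcases h1 with rfl | rfl | rfl <;> rcases h2 with rfl | rfl | rfl <;>
      rcases h3 with rfl | rfl | rfl <;> rcases h4 with rfl | rfl | rfl <;> simp at hne

theorem not_both {ψ ψ' : ℕ → X} (h : Pres K (Dom (LL false)) ψ) (h' : Pres K (Dom (LL true)) ψ')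
    (hc : Computable ψ) (hc' : Computable ψ') : False := by
  have hS : Sig fun y : (Site × Bool) × ℕ => ψ y.2 = T y.1.1 y.1.2 0 := Sig.ofDec (by fun_prop)
  obtain ⟨A, hA, H⟩ := Sig.unif_tot (R := fun (p : Site × Bool) (n : ℕ) => ψ n = T p.1 p.2 0) hS
    fun p => h.surj ((down_LL _).zero _ _)
  have stepL : ∀ σ b, ψ' (A (σ, false)) = T σ b 0 → ∃ i j, xor i j = b ∧
      ψ' (A (false :: σ, false)) = T (false :: σ) i 0 ∧
      ψ' (A (false :: σ, true)) = T (false :: σ) (!i) 0 ∧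
      ψ' (A (true :: σ, false)) = T (true :: σ) j 0 ∧
      ψ' (A (true :: σ, true)) = T (true :: σ) (!j) 0 := fun σ b hb => by
    obtain ⟨c, c', l, l', r, r', hp, e1, e2, e3, e4⟩ :=
      h.pat_exists (down_LL _) (i := false) (j := false) (H (σ, false))
    obtain rfl : l = A (false :: σ, false) := h.inj (by rw [e1, H])
    obtain rfl : l' = A (false :: σ, true) := h.inj (by rw [e2, H]; rfl)
    obtain rfl : r = A (true :: σ, false) := h.inj (by rw [e3, H])
    obtain rfl : r' = A (true :: σ, true) := h.inj (by rw [e4, H]; rfl)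
    rw [h'.pat, hb] at hp
    exact pat_unique hp
  have all : ∀ σ, ∃ b, ψ' (A (σ, false)) = T σ b 0 ∧ ψ' (A (σ, true)) = T σ (!b) 0 := by
    intro σ
    induction σ with
    | nil =>
      have r : ∀ c, ∃ b, ψ' (A ([], c)) = T [] b 0 := fun c =>
        (root_iff (down_LL _)).1 (h'.root.1 (h.root.2 ((root_iff (down_LL _)).2 ⟨c, H _⟩)))
      obtain ⟨b, hb⟩ := r false
      obtain ⟨b', hb'⟩ := r true
      refine ⟨b, hb, ?_⟩
      have : A ([], false) ≠ A ([], true) := by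
        rw [h.ne_iff, H, H]
        simp
      rw [h'.ne_iff, hb, hb'] at this
      rw [hb']
      cases b <;> cases b' <;> simp at this ⊢
    | cons d σ ih =>
      obtain ⟨b, hb, -⟩ := ih
      obtain ⟨i, j, -, a1, a2, a3, a4⟩ := stepL σ b hb
      cases d
      · exact ⟨i, a1, a2⟩
      · exact ⟨j, a3, a4⟩
  let x : Site → Bool := fun σ => bit (ψ' (A (σ, false)))
  have hx : Computable x := by
    have := p_bit
    fun_prop
  have hxA : ∀ σ b, ψ' (A (σ, b)) = T σ (xor b (x σ)) 0 := fun σ b => by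
    obtain ⟨c, h1, h2⟩ := all σ
    cases b <;> simp [x, h1, h2, bit]
  have hG : IsG x := fun σ => by
    obtain ⟨i, j, e, a1, -, a3, -⟩ := stepL σ (x σ) (by simpa using hxA σ false)
    rw [← e]
    simp [x, a1, a3, bit]
  have h1 := h'.twist hG (L' := fun σ b m => LL true σ (xor b (x σ)) m) fun _ _ _ => Iff.rfl
  have hu := h.unique (down_LL _) h1 ((down_LL _).twist x) (fun σ b => H (σ, b))
    (fun σ b => by simp [hxA])
  refine no_computable_odd hx hG ?_ fun σ hσ => ?_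
  · have := hu [] true 1
    cases hx0 : x []
    · simp [LL, hx0] at this
    · rfl
  · by_cases h0 : σ = []
    · exact h0 ▸ alive_nil
    · refine alive_of_lab fun m hm => ?_
      have := hu σ true m
      simp only [LL, h0, false_and, ne_eq, not_false_eq_true, true_and, false_or, hσ] at this
      exact this.1 hm

theorem main : ∃ H : SimpleGraph ℕ,
      ComputablePred (fun p : ℕ × ℕ => H.Adj p.1 p.2) ∧
      H.Connected ∧
      (∀ v : ℕ, (H.neighborSet v).Finite) ∧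
      ∃ n : ℕ, 2 ≤ n ∧ ∃ G : Fin n → SimpleGraph ℕ,
        (∀ i : Fin n, ComputablePred (fun p : ℕ × ℕ => (G i).Adj p.1 p.2) ∧
            Nonempty (H ≃g G i)) ∧
        (∀ i j : Fin n, i ≠ j → ∀ f : G i ≃g G j, ¬ Computable (⇑f : ℕ → ℕ)) ∧
        (∀ K : SimpleGraph ℕ, ComputablePred (fun p : ℕ × ℕ => K.Adj p.1 p.2) →
            Nonempty (H ≃g K) →
            ∃ i : Fin n, ∃ f : K ≃g G i, Computable (⇑f : ℕ → ℕ)) := by
  obtain ⟨G0, ψ0, a0, b0, c0⟩ := exists_pres false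
  obtain ⟨G1, ψ1, a1, b1, c1⟩ := exists_pres true
  refine ⟨G0, a0, c0.connected (down_LL _), c0.locFin, 2, le_rfl, ![G0, G1], ?_, ?_, ?_⟩
  · intro i
    fin_cases i
    · exact ⟨a0, ⟨SimpleGraph.Iso.refl⟩⟩
    · obtain ⟨ψ, hψ⟩ := pres_switch c0
      obtain ⟨f, -⟩ := hψ.iso c1
      exact ⟨a1, ⟨f⟩⟩
  · intro i j hij
    fin_cases i <;> fin_cases j
    · exact absurd rfl hij
    · exact fun (f : G0 ≃g G1) hf => not_both c0 (c1.comp_iso f) b0 (b1.comp hf)
    · exact fun (f : G1 ≃g G0) hf => not_both (c0.comp_iso f) c1 (b0.comp hf) b1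
    · exact absurd rfl hij
  · rintro K hK ⟨g⟩
    obtain ⟨i, ψ, h1, h2⟩ := pres_computable (c0.comp_iso g.symm) hK
    cases i
    · exact ⟨0, h2.iso_computable c0 h1 b0⟩
    · exact ⟨1, h2.iso_computable c1 h1 b1⟩

end Pool.Agent.P.MP_d6faff_lc
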