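import Pool.Agent.P.MP_d6faff_lc.FunProp

/-! Computably enumerable predicates: closure rules, uniformisation, a universal monotone
enumeration, injective enumerations, and a computable dependent choice along binary strings. -/

open Encodable

namespace Pool.Agent.P.MP_d6faff_lc

variable {α β γ : Type} [Primcodable α] [Primcodable β] [Primcodable γ]

/-- `p` is the projection of a computable relation -/
def Sig (p : α → Prop) : Prop :=
  ∃ q : α × ℕ → Bool, Computable q ∧ ∀ a, p a ↔ ∃ n, q (a, n) = true

theorem Sig.of_eq {p q : α → Prop} (hp : Sig p) (h : ∀ a, p a ↔ q a) : Sig q := by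
  obtain ⟨r, hr, e⟩ := hp
  exact ⟨r, hr, fun a => (h a).symm.trans (e a)⟩

theorem Sig.ofBool {f : α → Bool} (hf : Computable f) : Sig (fun a => f a = true) :=
  ⟨fun x => f x.1, by fun_prop, fun a => by simp⟩

theorem Sig.ofDec {p : α → Prop} [DecidablePred p] (hf : Computable fun a => decide (p a)) :
    Sig p := (Sig.ofBool hf).of_eq fun a => by simp

theorem Sig.ofPred {p : α → Prop} (hp : ComputablePred p) : Sig p := by
  classical exact Sig.ofDec hp.decide

theorem Sig.comp {p : β → Prop} (hp : Sig p) {f : α → β} (hf : Computable f) :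
    Sig (fun a => p (f a)) := by
  obtain ⟨r, hr, e⟩ := hp
  exact ⟨fun x => r (f x.1, x.2), by fun_prop, fun a => e (f a)⟩

theorem Sig.and {p q : α → Prop} (hp : Sig p) (hq : Sig q) : Sig (fun a => p a ∧ q a) := by
  obtain ⟨r, hr, e⟩ := hp
  obtain ⟨r', hr', e'⟩ := hq
  refine ⟨fun x => r (x.1, x.2.unpair.1) && r' (x.1, x.2.unpair.2), by fun_prop, fun a => ?_⟩
  dsimp only
  rw [e, e']
  constructor
  · rintro ⟨⟨n, hn⟩, ⟨m, hm⟩⟩
    exact ⟨Nat.pair n m, by simp [hn, hm]⟩
  · rintro ⟨n, hn⟩
    simp only [Bool.and_eq_true] at hn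
    exact ⟨⟨_, hn.1⟩, ⟨_, hn.2⟩⟩

theorem Sig.or {p q : α → Prop} (hp : Sig p) (hq : Sig q) : Sig (fun a => p a ∨ q a) := by
  obtain ⟨r, hr, e⟩ := hp
  obtain ⟨r', hr', e'⟩ := hq
  refine ⟨fun x => r x || r' x, by fun_prop, fun a => ?_⟩
  dsimp only
  rw [e, e']
  simp [exists_or]

theorem Sig.ex {p : α × β → Prop} (hp : Sig p) : Sig (fun a => ∃ b, p (a, b)) := by
  obtain ⟨r, hr, e⟩ := hp
  have hc : Computable fun x : α × ℕ =>
      ((decode x.2.unpair.1 : Option β).map fun b => r ((x.1, b), x.2.unpair.2)).getD false := by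
    refine Computable.option_getD (Computable.option_map (by fun_prop) ?_) (Computable.const _)
    unfold Computable₂
    fun_prop
  refine ⟨_, hc, fun a => ?_⟩
  constructor
  · rintro ⟨b, hb⟩
    obtain ⟨n, hn⟩ := (e _).1 hb
    exact ⟨Nat.pair (encode b) n, by simp [hn]⟩
  · rintro ⟨n, hn⟩
    dsimp only at hn
    cases hd : (decode n.unpair.1 : Option β) with
    | none => simp [hd] at hn
    | some b =>
      simp only [hd, Option.map_some, Option.getD_some] at hn
      exact ⟨b, (e _).2 ⟨_, hn⟩⟩

/-- uniformisation by a function computed by search -/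
theorem Sig.unif {R : α → β → Prop} (h : Sig (fun x : α × β => R x.1 x.2)) :
    ∃ F : α →. β, Partrec F ∧ ∀ a, (∀ b ∈ F a, R a b) ∧ ((∃ b, R a b) → (F a).Dom) := by
  obtain ⟨r, hr, e⟩ := h
  let f : α → ℕ → Option β := fun a n =>
    (decode n.unpair.1 : Option β).bind fun b => bif r ((a, b), n.unpair.2) then some b else none
  have hf : Computable₂ f := by
    refine Computable.option_bind (by fun_prop) ?_
    unfold Computable₂
    fun_prop
  refine ⟨fun a => Nat.rfindOpt (f a), Partrec.rfindOpt hf, fun a => ⟨fun b hb => ?_, ?_⟩⟩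
  · obtain ⟨n, hn⟩ := Nat.rfindOpt_spec hb
    simp only [f, Option.mem_def, Option.bind_eq_some_iff] at hn
    obtain ⟨b', -, hb'⟩ := hn
    cases hq : r ((a, b'), n.unpair.2) with
    | false => simp [hq] at hb'
    | true =>
      simp only [hq, cond_true, Option.some.injEq] at hb'
      subst hb'
      exact (e (a, b')).2 ⟨_, hq⟩
  · rintro ⟨b, hb⟩
    obtain ⟨n, hn⟩ := (e (a, b)).1 hb
    exact Nat.rfindOpt_dom.2 ⟨Nat.pair (encode b) n, b, by simp [f, hn]⟩

theorem Sig.unif_tot {R : α → β → Prop} (h : Sig (fun x : α × β => R x.1 x.2))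
    (ht : ∀ a, ∃ b, R a b) : ∃ f : α → β, Computable f ∧ ∀ a, R a (f a) := by
  obtain ⟨F, hF, H⟩ := h.unif
  refine ⟨fun a => (F a).get ((H a).2 (ht a)), hF.of_eq_tot fun a => Part.get_mem _, fun a => ?_⟩
  exact (H a).1 _ (Part.get_mem _)

theorem computable_of_graph {f : α → β} (h : Sig (fun x : α × β => f x.1 = x.2)) :
    Computable f := by
  obtain ⟨g, hg, e⟩ := Sig.unif_tot (R := fun a b => f a = b) h (fun a => ⟨_, rfl⟩)
  exact hg.of_eq fun a => (e a).symm

/-- the universal enumeration: the `e`-th program halts on `a` within `s` steps -/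
def univ (e s : ℕ) (a : α) : Bool :=
  (Nat.Partrec.Code.evaln s (Denumerable.ofNat Nat.Partrec.Code e) (encode a)).isSome

@[fun_prop] theorem p_univ {e s : β → ℕ} {a : β → α} (he : Primrec e) (hs : Primrec s)
    (ha : Primrec a) : Primrec fun x => univ (e x) (s x) (a x) := by
  unfold univ
  exact Primrec.option_isSome.comp (Nat.Partrec.Code.primrec_evaln.comp
    ((hs.pair ((Primrec.ofNat _).comp he)).pair (Primrec.encode.comp ha)))

theorem univ_mono {e s s' : ℕ} {a : α} (h : s ≤ s') (hs : univ e s a = true) :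
    univ e s' a = true := by
  unfold univ at *
  obtain ⟨x, hx⟩ := Option.isSome_iff_exists.1 hs
  exact Option.isSome_iff_exists.2 ⟨x, Nat.Partrec.Code.evaln_mono h hx⟩

theorem Sig.exists_index {p : α → Prop} (hp : Sig p) :
    ∃ e, ∀ a, p a ↔ ∃ s, univ e s a = true := by
  have h : Sig (fun x : α × ℕ => p x.1) := hp.comp (by fun_prop)
  obtain ⟨F, hF, H⟩ := Sig.unif (R := fun a (_ : ℕ) => p a) h
  obtain ⟨c, hc⟩ := Nat.Partrec.Code.exists_code.1 hF
  refine ⟨encode c, fun a => ?_⟩
  have h1 : c.eval (encode a) = (F a).map encode := by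
    rw [hc]
    simp
  unfold univ
  rw [Denumerable.ofNat_encode]
  constructor
  · intro ha
    have hd := (H a).2 ⟨0, ha⟩
    have : encode ((F a).get hd) ∈ c.eval (encode a) := by
      rw [h1]
      exact Part.mem_map _ (Part.get_mem hd)
    obtain ⟨k, hk⟩ := Nat.Partrec.Code.evaln_complete.1 this
    exact ⟨k, Option.isSome_iff_exists.2 ⟨_, hk⟩⟩
  · rintro ⟨s, hs⟩
    obtain ⟨x, hx⟩ := Option.isSome_iff_exists.1 hs
    have := Nat.Partrec.Code.evaln_sound hx
    rw [h1] at this
    obtain ⟨b, hb, -⟩ := (Part.mem_map_iff _).1 this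
    exact (H a).1 b hb

theorem Sig.ball {p : α × ℕ → Prop} (hp : Sig p) {f : α → ℕ} (hf : Computable f) :
    Sig (fun a => ∀ j < f a, p (a, j)) := by
  obtain ⟨e, he⟩ := hp.exists_index
  have h1 : Primrec fun x : (α × ℕ) × ℕ => allB (fun j => univ e x.2 (x.1.1, j)) x.1.2 := by
    fun_prop
  have h2 : Computable fun x : α × ℕ => allB (fun j => univ e x.2 (x.1, j)) (f x.1) :=
    h1.to_comp.comp (g := fun x : α × ℕ => ((x.1, f x.1), x.2)) (by fun_prop)
  refine ⟨_, h2, fun a => ?_⟩
  simp only [allB_iff]
  constructor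
  · intro h
    generalize f a = m at h
    induction m with
    | zero => exact ⟨0, by simp⟩
    | succ m ih =>
      obtain ⟨s, hs⟩ := ih (fun j hj => h j (by omega))
      obtain ⟨s', hs'⟩ := (he _).1 (h m (by omega))
      refine ⟨max s s', fun j hj => ?_⟩
      rcases Nat.lt_succ_iff_lt_or_eq.1 hj with hj | rfl
      · exact univ_mono (le_max_left _ _) (hs j hj)
      · exact univ_mono (le_max_right _ _) hs'
  · rintro ⟨s, hs⟩ j hj
    exact (he _).2 ⟨s, hs j hj⟩

theorem computable_nth {p : ℕ → Bool} (hp : Primrec p) (hi : {n | p n = true}.Infinite) :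
    Computable (Nat.nth fun n => p n = true) := by
  have h : Sig fun x : ℕ × ℕ => (p x.2 && decide (cntB p x.2 = x.1)) = true :=
    Sig.ofBool (by fun_prop)
  refine computable_of_graph (h.of_eq fun x => ?_)
  rw [Bool.and_eq_true, decide_eq_true_iff, cntB]
  constructor
  · rintro ⟨h1, h2⟩
    rw [← h2]
    exact Nat.nth_count (p := fun n => p n = true) h1
  · intro h1
    rw [← h1]
    exact ⟨Nat.nth_mem_of_infinite hi _, Nat.count_nth_of_infinite hi _⟩

/-- an infinite enumerable set is the range of an injective computable sequence -/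
theorem Sig.enum [Inhabited α] {D : Set α} (hD : Sig (fun a => a ∈ D)) (hi : D.Infinite) :
    ∃ f : ℕ → α, Computable f ∧ Function.Injective f ∧ Set.range f = D := by
  classical
  obtain ⟨e, he⟩ := hD.exists_index
  let g : ℕ → α := fun n => (decode n.unpair.1 : Option α).getD default
  have hg : Primrec g := by fun_prop
  let p : ℕ → Bool := fun n => decide (encode (g n) = n.unpair.1) &&
    (univ e (n.unpair.2 + 1) (g n) && !(univ e n.unpair.2 (g n)))
  have hp : Primrec p := by fun_prop
  have h0 : ∀ a : α, univ e 0 a = false := fun a => by simp [univ, Nat.Partrec.Code.evaln]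
  have hin : ∀ n, p n = true → g n ∈ D := fun n hn => by
    simp only [p, Bool.and_eq_true] at hn
    exact (he _).2 ⟨_, hn.2.1⟩
  have hsurj : ∀ a ∈ D, ∃ n, p n = true ∧ g n = a := fun a ha => by
    have hex := (he a).1 ha
    have h1 := Nat.find_spec hex
    have h2 : Nat.find hex ≠ 0 := fun h => by rw [h, h0] at h1; simp at h1
    obtain ⟨s, hs⟩ := Nat.exists_eq_succ_of_ne_zero h2
    have h3 := Nat.find_min hex (m := s) (by omega)
    rw [hs] at h1
    refine ⟨Nat.pair (encode a) s, ?_, by simp [g]⟩
    simp only [p, g, Nat.unpair_pair, encodek, Option.getD_some, decide_true, Bool.true_and,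
      Bool.and_eq_true, Bool.not_eq_eq_eq_not, Bool.not_true]
    exact ⟨h1, by simpa using h3⟩
  have hinj : ∀ n m, p n = true → p m = true → g n = g m → n = m := fun n m hn hm h => by
    simp only [p, Bool.and_eq_true, decide_eq_true_eq, Bool.not_eq_eq_eq_not, Bool.not_true]
      at hn hm
    have e1 : n.unpair.1 = m.unpair.1 := by rw [← hn.1, ← hm.1, h]
    have e2 : n.unpair.2 = m.unpair.2 := by
      by_contra hne
      rcases Nat.lt_or_gt_of_ne hne with hl | hl
      · have := univ_mono (e := e) (show n.unpair.2 + 1 ≤ m.unpair.2 from hl) hn.2.1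
        rw [h, hm.2.2] at this
        simp at this
      · have := univ_mono (e := e) (show m.unpair.2 + 1 ≤ n.unpair.2 from hl) hm.2.1
        rw [← h, hn.2.2] at this
        simp at this
    rw [← Nat.pair_unpair n, ← Nat.pair_unpair m, e1, e2]
  have hinf : {n | p n = true}.Infinite := by
    intro hfin
    refine hi ((hfin.image g).subset fun a ha => ?_)
    obtain ⟨n, hn, rfl⟩ := hsurj a ha
    exact ⟨n, hn, rfl⟩
  refine ⟨fun m => g (Nat.nth (fun n => p n = true) m), hg.to_comp.comp (computable_nth hp hinf),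
    fun m m' h => ?_, ?_⟩
  · exact Nat.nth_injective hinf
      (hinj _ _ (Nat.nth_mem_of_infinite hinf _) (Nat.nth_mem_of_infinite hinf _) h)
  · ext a
    constructor
    · rintro ⟨m, rfl⟩
      exact hin _ (Nat.nth_mem_of_infinite hinf _)
    · intro ha
      obtain ⟨n, hn, rfl⟩ := hsurj a ha
      exact ⟨Nat.count (fun n => p n = true) n, by
        simp only [Nat.nth_count (p := fun n => p n = true) hn]⟩

/-- recursion along a binary string with a step found by search -/
def walk (F : β →. β × β) (b0 : β) : List Bool → Part β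
  | [] => Part.some b0
  | d :: σ => (walk F b0 σ).bind fun x => (F x).map fun y => bif d then y.2 else y.1

theorem partrec_walk {F : β →. β × β} (hF : Partrec F) (b0 : β) : Partrec (walk F b0) := by
  have h := Partrec.nat_rec (f := fun σ : List Bool => σ.length) (g := fun _ => Part.some b0)
    (h := fun σ (p : ℕ × β) => (F p.2).map fun y => bif σ.reverse.getD p.1 false then y.2 else y.1)
    (by fun_prop) (Partrec.const' _) (by
      refine Partrec.map (hF.comp (by fun_prop)) ?_
      unfold Computable₂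
      fun_prop)
  refine h.of_eq fun σ => ?_
  have key : ∀ n ≤ σ.reverse.length, (Nat.rec (Part.some b0) (fun y IH => IH.bind fun i =>
      (F i).map fun z => bif σ.reverse.getD y false then z.2 else z.1) n : Part β) =
      walk F b0 (σ.reverse.take n).reverse := by
    intro n hn
    induction n with
    | zero => simp [walk]
    | succ n ih =>
      have hn' : n < σ.reverse.length := hn
      rw [List.take_succ_eq_append_getElem hn', List.reverse_append]
      simp only [List.reverse_cons, List.reverse_nil, List.nil_append, List.singleton_append, walk]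
      rw [← ih (by omega), List.getD_eq_getElem _ _ hn']
  have := key σ.length (by simp)
  rw [show σ.length = σ.reverse.length by simp, List.take_length, List.reverse_reverse] at this
  rw [show σ.length = σ.reverse.length by simp]
  exact this

theorem Sig.dc {R : β → β × β → Prop} (hR : Sig (fun x : β × (β × β) => R x.1 x.2))
    (Inv : List Bool → β → Prop) (b0 : β) (h0 : Inv [] b0)
    (hex : ∀ σ x, Inv σ x → ∃ y, R x y)
    (hst : ∀ σ x y, Inv σ x → R x y → Inv (false :: σ) y.1 ∧ Inv (true :: σ) y.2) :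
    ∃ W : List Bool → β, Computable W ∧ W [] = b0 ∧
      ∀ σ, Inv σ (W σ) ∧ R (W σ) (W (false :: σ), W (true :: σ)) := by
  obtain ⟨F, hF, H⟩ := hR.unif
  have htot : ∀ σ, ∃ x, walk F b0 σ = Part.some x ∧ Inv σ x := by
    intro σ
    induction σ with
    | nil => exact ⟨b0, rfl, h0⟩
    | cons d σ ih =>
      obtain ⟨x, hx, hi⟩ := ih
      obtain ⟨y, hy'⟩ := Part.dom_iff_mem.1 ((H x).2 (hex σ x hi))
      have hy := (H x).1 _ hy'
      refine ⟨bif d then y.2 else y.1, ?_, ?_⟩
      · rw [walk, hx, Part.bind_some, Part.eq_some_iff.2 hy']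
        simp
      · cases d
        · exact (hst σ x _ hi hy).1
        · exact (hst σ x _ hi hy).2
  choose W hW hI using htot
  refine ⟨W, (partrec_walk hF b0).of_eq_tot fun σ => by rw [hW]; simp, ?_, fun σ => ⟨hI σ, ?_⟩⟩
  · have := hW []
    simp only [walk, Part.some_inj] at this
    exact this.symm
  · obtain ⟨y, hy'⟩ := Part.dom_iff_mem.1 ((H (W σ)).2 (hex σ _ (hI σ)))
    have hy := (H (W σ)).1 _ hy'
    have h1 := hW (false :: σ)
    have h2 := hW (true :: σ)
    rw [walk, hW σ, Part.bind_some, Part.eq_some_iff.2 hy'] at h1 h2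
    simp only [Part.map_some, cond_false, cond_true, Part.some_inj] at h1 h2
    rw [← h1, ← h2]
    exact hy

end Pool.Agent.P.MP_d6faff_lc
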