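import Pool.Agent.P.MP_d6faff_lc.Constr

/-! Combinatorics of the tree of strategies. -/

namespace Pool.Agent.P.MP_d6faff_lc

/-- node reached at stage `s` -/
def nu (s : ℕ) : Node := (rcd s).1

/-- string visited at stage `s` -/
def vis (s : ℕ) : Site := (rcd s).2

/-- the string at which a node works -/
def site : Node → Site
  | [] => []
  | x :: γ => if x.2.2 = 0 then x.1 :: site γ else vis x.2.2

/-- the move of `γ` at stage `s` -/
def tr (γ : Node) (s : ℕ) : Bool × ℕ × ℕ := trip rcd γ (site γ) s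

def Chain (s : ℕ) (ν : Node) : Prop :=
  ∀ x γ, x :: γ <:+ ν → (site γ).length < s ∧ x = tr γ s ∧ x.1 :: site γ <:+ site (x :: γ)

theorem Chain.site_suffix {s : ℕ} {ν : Node} (h : Chain s ν) {γ : Node} (hγ : γ <:+ ν) :
    site γ <:+ site ν := by
  induction ν with
  | nil =>
    rw [List.suffix_nil.1 hγ]
  | cons x ν ih =>
    rcases List.suffix_cons_iff.1 hγ with rfl | hγ
    · exact List.suffix_rfl
    · have h1 : Chain s ν := fun y δ hy => h y δ (hy.trans (List.suffix_cons _ _))
      exact (ih h1 hγ).trans ((List.suffix_cons _ _).trans (h x ν List.suffix_rfl).2.2)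

theorem actLt_iff0 {γ : Node} {i : Bool} {o t : ℕ} :
    actLt rcd γ i o t = true ↔ ∃ o' < o, ∃ t' < t, (i, o', t') :: γ <:+ nu t := by
  simp [actLt, sfx_iff, nu]

theorem spec (s : ℕ) : vis s = site (nu s) ∧ (vis s).length = s ∧ Chain s (nu s) := by
  induction s using Nat.strong_induction_on with
  | _ s IH =>
  have key : ∀ n, ((step rcd s)^[n] ([], [])).2 = site ((step rcd s)^[n] ([], [])).1 ∧
      ((step rcd s)^[n] ([], [])).2.length ≤ s ∧
      min n s ≤ ((step rcd s)^[n] ([], [])).2.length ∧ Chain s ((step rcd s)^[n] ([], [])).1 := by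
    intro n
    induction n with
    | zero =>
      refine ⟨rfl, by simp, by simp, fun x γ hx => ?_⟩
      simp at hx
    | succ n ih =>
      rw [Function.iterate_succ_apply']
      generalize (step rcd s)^[n] ([], []) = r at ih
      obtain ⟨γ, σ⟩ := r
      obtain ⟨h1, h2, h3, h4⟩ := ih
      dsimp only at h1 h2 h3 h4
      subst h1
      by_cases hl : (site γ).length < s
      · have e : step rcd s (γ, site γ) = (tr γ s :: γ, site (tr γ s :: γ)) := by
          unfold step
          simp only [hl, decide_true, cond_true, site, tr, vis]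
          by_cases h0 : (trip rcd γ (site γ) s).2.2 = 0 <;> simp [h0]
        rw [e]
        have hk : (tr γ s).1 :: site γ <:+ site (tr γ s :: γ) ∧
            (site (tr γ s :: γ)).length ≤ s := by
          rw [site]
          split_ifs with h0
          · exact ⟨List.suffix_rfl, by simpa using hl⟩
          · have ht : (tr γ s).2.2 < s := lastB_lt (by omega)
            have ha : actLt rcd γ (tr γ s).1 (tr γ s).2.1 (tr γ s).2.2 = true := lastB_spec h0
            obtain ⟨o', -, t', -, hx⟩ := actLt_iff0.1 ha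
            obtain ⟨i1, i2, i3⟩ := IH _ ht
            refine ⟨?_, by omega⟩
            rw [i1]
            exact (i3 _ _ hx).2.2.trans (i3.site_suffix hx)
        refine ⟨rfl, hk.2, ?_, fun x δ hx => ?_⟩
        · have := hk.1.length_le
          simp only [List.length_cons] at this
          dsimp only
          omega
        · rcases List.suffix_cons_iff.1 hx with hx | hx
          · obtain ⟨rfl, rfl⟩ := List.cons.inj hx
            exact ⟨hl, rfl, hk.1⟩
          · exact h4 x δ hx
      · have e : step rcd s (γ, site γ) = (γ, site γ) := by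
          unfold step
          simp [hl]
        rw [e]
        exact ⟨rfl, h2, by dsimp only; omega, h4⟩
  obtain ⟨h1, h2, h3, h4⟩ := key s
  have e : rcd s = (step rcd s)^[s] ([], []) := rcd_eq s
  unfold vis nu
  rw [e]
  exact ⟨h1, by omega, h4⟩

theorem vis_length (s : ℕ) : (vis s).length = s := (spec s).2.1

theorem site_suffix_vis {γ : Node} {s : ℕ} (h : γ <:+ nu s) : site γ <:+ vis s := by
  rw [(spec s).1]
  exact (spec s).2.2.site_suffix h

/-- `γ` is visited at stage `s` and makes a move -/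
def Acts (γ : Node) (s : ℕ) : Prop := γ <:+ nu s ∧ (site γ).length < s

def dir (γ : Node) (s : ℕ) : Bool := (dcs rcd γ (site γ) s).1

def out (γ : Node) (s : ℕ) : ℕ := (dcs rcd γ (site γ) s).2

def lst (γ : Node) (i : Bool) (o s : ℕ) : ℕ := lastB (actLt rcd γ i o) s

theorem tr_eq (γ : Node) (s : ℕ) :
    tr γ s = (dir γ s, out γ s, lst γ (dir γ s) (out γ s) s) := rfl

theorem Acts.child {γ : Node} {s : ℕ} (h : Acts γ s) : tr γ s :: γ <:+ nu s := by
  obtain ⟨l, hl⟩ := h.1
  rcases List.eq_nil_or_concat l with rfl | ⟨l', x, rfl⟩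
  · exfalso
    have h1 := (spec s).1
    have h2 := vis_length s
    have h3 := h.2
    rw [← hl, List.nil_append] at h1
    rw [h1] at h2
    omega
  · have hx : x :: γ <:+ nu s := ⟨l', by rw [← hl]; simp⟩
    rw [← ((spec s).2.2 x γ hx).2.1]
    exact hx

theorem visit_iff {γ : Node} {i : Bool} {o t s : ℕ} :
    (i, o, t) :: γ <:+ nu s ↔ Acts γ s ∧ dir γ s = i ∧ out γ s = o ∧ lst γ i o s = t := by
  constructor
  · intro h
    obtain ⟨h1, h2, -⟩ := (spec s).2.2 _ _ h
    rw [tr_eq] at h2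
    simp only [Prod.mk.injEq] at h2
    obtain ⟨rfl, rfl, rfl⟩ := h2
    exact ⟨⟨(List.suffix_cons _ _).trans h, h1⟩, rfl, rfl, rfl⟩
  · rintro ⟨h, rfl, rfl, rfl⟩
    exact h.child

theorem actLt_iff {γ : Node} {i : Bool} {o t : ℕ} :
    actLt rcd γ i o t = true ↔ Acts γ t ∧ dir γ t = i ∧ out γ t < o := by
  rw [actLt_iff0]
  constructor
  · rintro ⟨o', ho, t', -, h⟩
    obtain ⟨h1, h2, h3, -⟩ := visit_iff.1 h
    exact ⟨h1, h2, by omega⟩
  · rintro ⟨h1, h2, h3⟩
    have := h1.2
    exact ⟨_, h3, _, lastB_lt (by omega), visit_iff.2 ⟨h1, h2, rfl, rfl⟩⟩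

theorem ent_suffix_site {x : Bool × ℕ × ℕ} {γ : Node} {s : ℕ} (h : x :: γ <:+ nu s) :
    x.1 :: site γ <:+ site (x :: γ) := ((spec s).2.2 _ _ h).2.2

theorem Acts.dir_suffix {γ : Node} {s : ℕ} (h : Acts γ s) : dir γ s :: site γ <:+ vis s :=
  (ent_suffix_site h.child).trans (site_suffix_vis h.child)

theorem suffix_cons_unique {δ : Type*} {a b : δ} {l m : List δ} (h1 : a :: l <:+ m)
    (h2 : b :: l <:+ m) : a = b := by
  have := List.suffix_of_suffix_length_le h1 h2 (by simp)
  have h3 := this.eq_of_length (by simp)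
  exact (List.cons.inj h3).1

/-- the string at which the cone of a node begins -/
def ent : Node → Site
  | [] => []
  | x :: γ => x.1 :: site γ

theorem ent_suffix_site' {γ : Node} {s : ℕ} (h : γ <:+ nu s) : ent γ <:+ site γ := by
  cases γ with
  | nil => exact List.suffix_rfl
  | cons x γ => exact ent_suffix_site h

/-- `γ` is visited infinitely often, and between its visits its cone is entered only along the
string of its last visit -/
def Good (γ : Node) : Prop :=
  (∀ B, ∃ s, B ≤ s ∧ γ <:+ nu s) ∧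
  ∀ s u, s ≤ u → γ <:+ nu s → (∀ v, s < v → v ≤ u → ¬ γ <:+ nu v) → ent γ <:+ vis u →
    vis s <:+ vis u

theorem good_nil : Good [] := by
  refine ⟨fun B => ⟨B, le_rfl, List.nil_suffix⟩, fun s u hsu _ h _ => ?_⟩
  rcases hsu.eq_or_lt with rfl | hlt
  · exact List.suffix_rfl
  · exact absurd List.nil_suffix (h u hlt le_rfl)

theorem exists_last (P : ℕ → Prop) {s u : ℕ} (hs : P s) (hsu : s ≤ u) :
    ∃ w, s ≤ w ∧ w ≤ u ∧ P w ∧ ∀ v, w < v → v ≤ u → ¬ P v := by
  classical
  exact ⟨Nat.findGreatest P u, Nat.le_findGreatest hsu hs, Nat.findGreatest_le u,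
    Nat.findGreatest_spec hsu hs, fun v h1 h2 => Nat.findGreatest_is_greatest h1 h2⟩

theorem Good.child {γ : Node} (hγ : Good γ) {i : Bool} {o t : ℕ}
    (hinf : ∀ B, ∃ s, B ≤ s ∧ (i, o, t) :: γ <:+ nu s) : Good ((i, o, t) :: γ) := by
  refine ⟨hinf, fun s u => ?_⟩
  induction u using Nat.strong_induction_on with
  | _ u IH =>
  intro hsu hs hno hent
  rcases hsu.eq_or_lt with rfl | hlt
  · exact List.suffix_rfl
  obtain ⟨hA, hd, ho, ht⟩ := visit_iff.1 hs
  have hlen : (site γ).length < s := hA.2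
  change i :: site γ <:+ vis u at hent
  -- it is enough to find an earlier stage whose string lies below the string of stage `u`
  suffices h : ∃ w, s ≤ w ∧ w < u ∧ vis w <:+ vis u by
    obtain ⟨w, h1, h2, h3⟩ := h
    refine (IH w h2 h1 hs (fun v hv hv' => hno v hv (by omega)) ?_).trans h3
    refine List.suffix_of_suffix_length_le hent h3 ?_
    rw [vis_length, ent, List.length_cons]
    omega
  by_cases hu : γ <:+ nu u
  · have hAu : Acts γ u := ⟨hu, by omega⟩
    have hdu : dir γ u = i := suffix_cons_unique hAu.dir_suffix hent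
    obtain ⟨w, hw, hwv⟩ := hinf (u + 1)
    obtain ⟨-, -, -, htw⟩ := visit_iff.1 hwv
    have hts : t < s := by
      rw [← ht]
      exact lastB_lt (by omega)
    rcases lt_trichotomy (out γ u) o with hc | hc | hc
    · have : u ≤ lst γ i o w := le_lastB (by omega) (actLt_iff.2 ⟨hAu, hdu, hc⟩)
      omega
    · exfalso
      have h1 : lst γ i o s ≤ lst γ i o u := lastB_mono hsu
      have h2 : lst γ i o u ≤ lst γ i o w := lastB_mono (by omega)
      exact hno u hlt le_rfl (visit_iff.2 ⟨hAu, hdu, hc, by omega⟩)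
    · have h1 : s ≤ lst γ i (out γ u) u := le_lastB hlt (actLt_iff.2 ⟨hA, hd, by omega⟩)
      refine ⟨lst γ i (out γ u) u, h1, lastB_lt (by omega), ?_⟩
      have h2 := site_suffix_vis (visit_iff.2 ⟨hAu, hdu, rfl, rfl⟩)
      rw [site, if_neg (by dsimp only; omega)] at h2
      exact h2
  · obtain ⟨w, h1, h2, h3, h4⟩ := exists_last (fun v => γ <:+ nu v) hA.1 hsu
    have h5 : w ≠ u := fun h => hu (h ▸ h3)
    refine ⟨w, h1, by omega, hγ.2 w u h2 h3 h4 ?_⟩
    exact (ent_suffix_site' h3).trans ((List.suffix_cons _ _).trans hent)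

/-- `ρ` is visited infinitely often -/
def Alive (ρ : Site) : Prop := ∀ B, ∃ u, B ≤ u ∧ ρ <:+ vis u

theorem Alive.of_suffix {ρ τ : Site} (h : Alive τ) (hs : ρ <:+ τ) : Alive ρ := fun B => by
  obtain ⟨u, h1, h2⟩ := h B
  exact ⟨u, h1, hs.trans h2⟩

theorem Good.acts_of_alive {γ : Node} (hγ : Good γ) {i : Bool} (h : Alive (i :: site γ)) (B : ℕ) :
    ∃ s, B ≤ s ∧ Acts γ s ∧ dir γ s = i := by
  obtain ⟨s1, h1, h2⟩ := hγ.1 (max B ((site γ).length + 1))
  obtain ⟨u, h3, h4⟩ := h s1
  obtain ⟨w, h5, h6, h7, h8⟩ := exists_last (fun v => γ <:+ nu v) h2 h3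
  have hA : Acts γ w := ⟨h7, by omega⟩
  have h9 : vis w <:+ vis u :=
    hγ.2 w u h6 h7 h8 ((ent_suffix_site' h7).trans ((List.suffix_cons _ _).trans h4))
  exact ⟨w, by omega, hA, suffix_cons_unique (hA.dir_suffix.trans h9) h4⟩

theorem out_le (γ : Node) (s : ℕ) : out γ s ≤ 2 := by
  unfold out dcs
  cases decide (γ.length % 2 = 0) <;> simp only [cond_true, cond_false]
  · cases resp rcd (γ.length / 2) s ((!isw rcd γ s) :: site γ) (tsw rcd γ s) <;>
      simp only [cond_true, cond_false]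
    · exact le_rfl
    · cases beta rcd (γ.length / 2) s ((!isw rcd γ s) :: site γ) <;> simp
  · omega

theorem Good.exists_child {γ : Node} (hγ : Good γ) {i : Bool} {m : ℕ}
    (h : ∀ B, ∃ s, B ≤ s ∧ Acts γ s ∧ dir γ s = i ∧ out γ s ≤ m) :
    ∃ o t, o ≤ m ∧ Good ((i, o, t) :: γ) := by
  induction m using Nat.strong_induction_on with
  | _ m IH =>
  by_cases hc : ∃ m' < m, ∀ B, ∃ s, B ≤ s ∧ Acts γ s ∧ dir γ s = i ∧ out γ s ≤ m'
  · obtain ⟨m', h1, h2⟩ := hc
    obtain ⟨o, t, h3, h4⟩ := IH m' h1 h2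
    exact ⟨o, t, by omega, h4⟩
  · have hB : ∃ B0, ∀ s, B0 ≤ s → Acts γ s → dir γ s = i → m ≤ out γ s := by
      rcases Nat.eq_zero_or_pos m with rfl | hm
      · exact ⟨0, fun _ _ _ _ => Nat.zero_le _⟩
      · by_contra hn
        push Not at hn
        refine hc ⟨m - 1, by omega, fun B => ?_⟩
        obtain ⟨s, h1, h2, h3, h4⟩ := hn B
        exact ⟨s, h1, h2, h3, by omega⟩
    obtain ⟨B0, hB⟩ := hB
    refine ⟨m, lst γ i m B0, le_rfl, hγ.child fun B => ?_⟩
    obtain ⟨s, h1, h2, h3, h4⟩ := h (max B B0)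
    have h5 := hB s (by omega) h2 h3
    refine ⟨s, by omega, visit_iff.2 ⟨h2, h3, by omega, le_antisymm ?_ (lastB_mono (by omega))⟩⟩
    by_cases h0 : lst γ i m s = 0
    · omega
    · obtain ⟨h6, h7, h8⟩ := actLt_iff.1 (lastB_spec h0)
      refine le_lastB ?_ (lastB_spec h0)
      by_contra hn
      exact absurd (hB _ (not_lt.1 hn) h6 h7) (not_le.2 h8)

/-- an infinite path through the binary tree, given by its levels -/
structure IsPath (p : ℕ → Site) : Prop where
  zero : p 0 = []
  succ : ∀ n, ∃ d, p (n + 1) = d :: p n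

theorem IsPath.length {p : ℕ → Site} (h : IsPath p) (n : ℕ) : (p n).length = n := by
  induction n with
  | zero => simp [h.zero]
  | succ n ih =>
    obtain ⟨d, hd⟩ := h.succ n
    simp [hd, ih]

theorem IsPath.suffix {p : ℕ → Site} (h : IsPath p) {n m : ℕ} (hnm : n ≤ m) : p n <:+ p m := by
  induction m, hnm using Nat.le_induction with
  | base => exact List.suffix_rfl
  | succ m _ ih =>
    obtain ⟨d, hd⟩ := h.succ m
    rw [hd]
    exact ih.trans (List.suffix_cons _ _)

theorem exists_good_on_path {p : ℕ → Site} (hp : IsPath p) (ha : ∀ n, Alive (p n)) (n : ℕ) :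
    ∃ γ : Node, γ.length = n ∧ Good γ ∧ site γ = p (site γ).length := by
  induction n with
  | zero => exact ⟨[], rfl, good_nil, by simp [site, hp.zero]⟩
  | succ n ih =>
    obtain ⟨γ, h1, h2, h3⟩ := ih
    obtain ⟨i, hi⟩ := hp.succ (site γ).length
    rw [← h3] at hi
    have hal : Alive (i :: site γ) := hi ▸ ha _
    obtain ⟨o, t, -, hg⟩ := h2.exists_child (i := i) (m := 2) fun B => by
      obtain ⟨s, e1, e2, e3⟩ := h2.acts_of_alive hal B
      exact ⟨s, e1, e2, e3, out_le _ _⟩
    refine ⟨(i, o, t) :: γ, by simp [h1], hg, ?_⟩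
    obtain ⟨s, -, hs⟩ := hg.1 0
    obtain ⟨u, hu, hu'⟩ := ha (site ((i, o, t) :: γ)).length s
    obtain ⟨w, -, h6, h7, h8⟩ := exists_last (fun v => (i, o, t) :: γ <:+ nu v) hs hu
    have hl := (ent_suffix_site hs).length_le
    have h9 : i :: site γ <:+ vis u := by
      rw [← hi]
      exact (hp.suffix (by simpa using hl)).trans hu'
    have h10 := (site_suffix_vis h7).trans (hg.2 w u h6 h7 h8 h9)
    exact (List.suffix_of_suffix_length_le h10 hu' (by rw [hp.length])).eq_of_length
      (by rw [hp.length])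

end Pool.Agent.P.MP_d6faff_lc
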